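import Pool.Agent.H42.PP.BraA

/-!
# Module Koe: Koebe estimates for the branches

PROOFS. Write `g = br P Q c s p`, univalent on `ball c (rho s)`, `rho s = 131072 KK s`. `rho s / 2 * ‖g' u0‖ / 16 ≤ ‖g u0 - c‖ ≤ 8 s`, so `‖g' u0‖ ≤ 256 s / rho s`; `distort_lip` (`R = rho s`, `ball c (8 s) ⊆ closedBall c (rho s / 2)`): `‖g u - g u'‖ ≤ KK * 256 s / (131072 KK s) * 16 s = s / 32`.
`koe_low`: `univ_cover` on `ball x (2 s) ⊆ ball c (8 s)`: `b ∉ g '' ball x (2 s)`. `koe_cmp`: `‖g z - b‖ ≤ ‖g z - g x‖ + ‖g x - b‖`, `‖g z - g x‖ ≤ KK ‖g' x‖ 12 s ≤ 96 KK ‖g x - b‖`. `koe_der`: `distort`, `deriv_ne`.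
-/

set_option autoImplicit false

open Filter Topology Polynomial OnePoint Metric Set MeasureTheory

namespace Pool.Agent.H42.PP

open Pool.Agent.H44.Fatou Pool.Agent.H32.BT Pool.Agent.H80.AJ Pool.Agent.H35.EX Pool.Agent.H61.TT
open Pool.Agent.H1.PU

variable {d : ℕ} {P Q : Polynomial ℂ} {PA : Set (OnePoint ℂ)} {c : ℂ} {s : ℝ}

private theorem rad8 (h0 : 0 < s) : ball c (8 * s) ⊆ closedBall c (rho s / 2) := by
  have hK := one_le_KK
  intro w hw
  rw [mem_ball] at hw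
  rw [mem_closedBall, rho]
  nlinarith

private theorem rad8' (h0 : 0 < s) : ball c (8 * s) ⊆ ball c (rho s) := by
  have hK := one_le_KK
  apply ball_subset_ball
  rw [rho]
  nlinarith

theorem koe_der (h : PS0 d P Q PA c s) {p : ℕ × ℂ} (hp : p ∈ IX P Q c) {x z : ℂ}
    (hx : x ∈ ball c (8 * s)) (hz : z ∈ ball c (8 * s)) :
    0 < ‖deriv (br P Q c s p) x‖ ∧ ‖deriv (br P Q c s p) x‖ ≤ KK * ‖deriv (br P Q c s p) z‖ := by
  have hx' := rad8 h.s0 hx
  have hz' := rad8 h.s0 hz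
  exact ⟨deriv_ne (rho_pos h.s0) (br_spec h hp).diff (br_inj h hp) hx',
    distort (rho_pos h.s0) (br_spec h hp).diff (br_inj h hp) hx' hz'⟩

theorem koe_low (h : PS0 d P Q PA c s) {p : ℕ × ℂ} (hp : p ∈ IX P Q c) {x b : ℂ} (hx : x ∈ ball c (6 * s))
    (hb : b ∉ br P Q c s p '' ball c (8 * s)) : s * ‖deriv (br P Q c s p) x‖ / 8 ≤ ‖br P Q c s p x - b‖ := by
  have h0 := h.s0
  have hsub : ball x (2 * s) ⊆ ball c (8 * s) := by
    apply ball_subset_ball'
    rw [mem_ball] at hx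
    linarith
  have hsub2 := hsub.trans (rad8' h.s0)
  by_contra hcon
  push Not at hcon
  apply hb
  apply image_mono hsub
  apply univ_cover (R := 2 * s) (by linarith) ((br_spec h hp).diff.mono hsub2)
    ((br_inj h hp).mono hsub2)
  rw [mem_ball, dist_eq_norm, norm_sub_rev]
  refine lt_of_lt_of_le hcon (le_of_eq ?_)
  ring

/-- comparison of the distances to a point which is not in the image -/
theorem koe_cmp (h : PS0 d P Q PA c s) {p : ℕ × ℂ} (hp : p ∈ IX P Q c) {x z b : ℂ}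
    (hx : x ∈ ball c (6 * s)) (hz : z ∈ ball c (6 * s)) (hb : b ∉ br P Q c s p '' ball c (8 * s)) :
    ‖br P Q c s p z - b‖ ≤ (1 + 96 * KK) * ‖br P Q c s p x - b‖ := by
  have h0 := h.s0
  have h68 : ball c (6 * s) ⊆ ball c (8 * s) := ball_subset_ball (by linarith)
  have h1 := koe_low h hp hx hb
  have h2 := distort_lip (rho_pos h.s0) (br_spec h hp).diff (br_inj h hp) (rad8 h0 (h68 hz))
    (rad8 h0 (h68 hx)) (rad8 h0 (h68 hx))
  have h3 : ‖z - x‖ ≤ 12 * s := by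
    rw [mem_ball, dist_eq_norm] at hx hz
    have e : z - x = (z - c) - (x - c) := by ring
    rw [e]
    refine (norm_sub_le _ _).trans ?_
    linarith
  have hK := KK_pos
  have h4 : KK * ‖deriv (br P Q c s p) x‖ * ‖z - x‖ ≤ KK * ‖deriv (br P Q c s p) x‖ * (12 * s) :=
    mul_le_mul_of_nonneg_left h3 (by positivity)
  have h5 : KK * ‖deriv (br P Q c s p) x‖ * (12 * s) ≤ 96 * KK * ‖br P Q c s p x - b‖ := by
    calc KK * ‖deriv (br P Q c s p) x‖ * (12 * s)
        = 96 * KK * (s * ‖deriv (br P Q c s p) x‖ / 8) := by ring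
      _ ≤ 96 * KK * ‖br P Q c s p x - b‖ := mul_le_mul_of_nonneg_left h1 (by positivity)
  have h6 : ‖br P Q c s p z - b‖ ≤ ‖br P Q c s p z - br P Q c s p x‖ + ‖br P Q c s p x - b‖ :=
    norm_sub_le_norm_sub_add_norm_sub _ _ _
  linarith

/-- the image of a small ball contains a ball -/
theorem koe_in (h : PS0 d P Q PA c s) {p : ℕ × ℂ} (hp : p ∈ IX P Q c) :
    ball p.2 (s * ‖deriv (br P Q c s p) c‖ / 16) ⊆ br P Q c s p '' ball c s := by
  have h0 := h.s0
  have hsub : ball c s ⊆ ball c (rho s) :=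
    (ball_subset_ball (by linarith)).trans (rad8' h.s0)
  have h1 := univ_cover h0 ((br_spec h hp).diff.mono hsub) ((br_inj h hp).mono hsub)
  rwa [(br_spec h hp).val] at h1

end Pool.Agent.H42.PP
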