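import Pool.Agent.H42.PP.Koe
import Pool.Agent.H1.RO.Chg
import Pool.Agent.H50.ST.OPA
import Pool.Agent.H61.TT.Fib

/-!
# THEOREM P+, module Maj: majorants from a window

`ix_cnt`: the index set is countable. `win_maj`: majorants for the sums over a set of branches with a window. `mj_win`: `Mj` from a window for `EE ∪ R1`, if the branches of `R1` land in a fixed disc.
-/

set_option autoImplicit false

open Filter Topology Polynomial OnePoint Metric Set MeasureTheory

namespace Pool.Agent.H42.PP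

open Pool.Agent.H44.Fatou Pool.Agent.H32.BT Pool.Agent.H80.AJ Pool.Agent.H35.EX Pool.Agent.H61.TT
open Pool.Agent.H1.PU

variable {d : ℕ} {P Q : Polynomial ℂ} {PA : Set (OnePoint ℂ)} {c : ℂ} {s : ℝ}

variable {A : Set ℂ}

private theorem lev_cnt (h : PS0 d P Q PA c s) (n : ℕ) :
    {y : ℂ | (rat P Q)^[n] (y : OnePoint ℂ) = (c : OnePoint ℂ)}.Countable := by
  induction n with
  | zero =>
    have h1 : {y : ℂ | (rat P Q)^[0] (y : OnePoint ℂ) = (c : OnePoint ℂ)} ⊆ {c} := by
      intro y hy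
      exact OnePoint.coe_injective hy
    exact (countable_singleton c).mono h1
  | succ n ih =>
    have h1 : {y : ℂ | (rat P Q)^[n + 1] (y : OnePoint ℂ) = (c : OnePoint ℂ)} ⊆
        ⋃ z ∈ {y : ℂ | (rat P Q)^[n] (y : OnePoint ℂ) = (c : OnePoint ℂ)}, (fs P Q z : Set ℂ) := by
      intro y hy
      have hy' : (rat P Q)^[n] (rat P Q (y : OnePoint ℂ)) = (c : OnePoint ℂ) := by
        rw [← Function.iterate_succ_apply]
        exact hy
      obtain ⟨z, hz⟩ := pre_fin h (c_mem h) hy'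
      rw [hz] at hy'
      have hQ : Q.eval y ≠ 0 := by
        intro h0
        rw [rat_coe] at hz
        unfold pt at hz
        rw [if_pos h0] at hz
        exact OnePoint.infty_ne_coe _ hz
      rw [rat_coe_of_ne hQ] at hz
      simp only [mem_iUnion]
      refine ⟨z, hy', ?_⟩
      rw [Finset.mem_coe, mem_fs h.rd]
      exact ⟨hQ, OnePoint.coe_injective hz⟩
    exact (ih.biUnion fun z _ => (fs P Q z).finite_toSet.countable).mono h1

theorem ix_cnt (h : PS0 d P Q PA c s) : (IX P Q c).Countable := by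
  have h1 : IX P Q c ⊆ ⋃ n : ℕ, (Prod.mk n) '' {y : ℂ | (rat P Q)^[n] (y : OnePoint ℂ) = (c : OnePoint ℂ)} := by
    rintro ⟨n, y⟩ hp
    exact mem_iUnion.2 ⟨n, y, hp, rfl⟩
  exact (countable_iUnion fun n => (lev_cnt h n).image _).mono h1

theorem Win.mono {S S' : Set (ℕ × ℂ)} {x' : ℂ} {r' : ℝ} {N0 : ℕ} (hW : Win P Q c s S x' r' N0)
    (hS : S' ⊆ S) : Win P Q c s S' x' r' N0 :=
  ⟨hW.r0, hW.sub, hW.n0, fun p hp q hq => hW.dis p (hS hp) q (hS hq)⟩

/-- majorants for the sums over a set of branches with a window -/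
theorem win_maj (h : PS0 d P Q PA c s) {S : Set (ℕ × ℂ)} (hS : S ⊆ IX P Q c) {x' : ℂ} {r' : ℝ}
    {N0 : ℕ} (hW : Win P Q c s S x' r' N0) :
    ∃ C : ℝ, 0 ≤ C ∧ ∀ (F : ℂ → ℝ) (M : ℝ), Integrable F → (∀ y, 0 ≤ F y) → 0 ≤ M →
      (∀ p ∈ S, ∀ x ∈ ball c (6 * s), ∀ z ∈ ball c (6 * s),
        F (br P Q c s p x) ≤ M * F (br P Q c s p z)) →
      ∃ u : S → ℝ, Summable u ∧ ∑' p, u p ≤ C * M * ∫ y, F y ∧
        ∀ (p : S), ∀ x ∈ ball c (6 * s),
          ‖deriv (br P Q c s p.1) x‖ ^ 2 * F (br P Q c s p.1 x) ≤ u p := by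
  have h0 := h.s0
  have hK := KK_pos
  have hcnt : Countable S := ((ix_cnt h).mono hS).to_subtype
  set W : Set ℂ := ball x' r' with hWd
  have hW1 : W ⊆ ball c s := hW.sub
  have hAb : W ⊆ ball c (8 * s) := hW1.trans (ball_subset_ball (by linarith))
  have h68 : ball c (6 * s) ⊆ ball c (8 * s) := ball_subset_ball (by linarith)
  have hAm : MeasurableSet W := measurableSet_ball
  have h8 : ball c (8 * s) ⊆ ball c (rho s) :=
    ball_subset_ball (by have := rho_ge h0; linarith)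
  have hvt : volume W ≠ ⊤ := measure_ball_lt_top.ne
  have hv0 : volume W ≠ 0 := (measure_ball_pos _ _ hW.r0).ne'
  have hV : 0 < (volume W).toReal := ENNReal.toReal_pos hv0 hvt
  refine ⟨KK ^ 2 / (volume W).toReal * N0, by positivity, ?_⟩
  intro F M hF hF0 hM hcmp
  set J : S → ENNReal := fun p => ∫⁻ y in br P Q c s p.1 '' W, ENNReal.ofReal (F y)
    with hJ
  have hJm : ∀ p : S, MeasurableSet (br P Q c s p.1 '' W) := fun p =>
    (open_image (br_diff h (hS p.2)) (br_inj h (hS p.2)) isOpen_ball (hAb.trans h8)).measurableSet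
  have hres : ∀ ρ : ℕ, ∑' p : S, (if p.1.1 % N0 = ρ then J p else 0) ≤
      ∫⁻ y, ENNReal.ofReal (F y) := by
    intro ρ
    have e1 : ∀ p : S, (if p.1.1 % N0 = ρ then J p else 0) =
        ∫⁻ y in (if p.1.1 % N0 = ρ then br P Q c s p.1 '' W else ∅), ENNReal.ofReal (F y) := by
      intro p
      split_ifs
      · rfl
      · simp
    simp_rw [e1]
    rw [← lintegral_iUnion]
    · exact setLIntegral_le_lintegral _ _
    · intro p
      split_ifs
      · exact hJm p
      · exact MeasurableSet.empty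
    · intro p q hpq
      show Disjoint (if p.1.1 % N0 = ρ then br P Q c s p.1 '' W else ∅)
        (if q.1.1 % N0 = ρ then br P Q c s q.1 '' W else ∅)
      split_ifs with h1 h2 h2
      · exact hW.dis p.1 p.2 q.1 q.2 (fun he => hpq (Subtype.ext he)) (h1.trans h2.symm)
      · exact disjoint_empty _
      · exact empty_disjoint _
      · exact empty_disjoint _
  have hJs : ∑' p, J p ≤ N0 * ∫⁻ y, ENNReal.ofReal (F y) := by
    have e2 : ∀ p : S, J p = ∑ ρ ∈ Finset.range N0, (if p.1.1 % N0 = ρ then J p else 0) := by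
      intro p
      rw [Finset.sum_ite_eq, if_pos (Finset.mem_range.2 (Nat.mod_lt _ hW.n0))]
    calc ∑' p, J p = ∑' p : S, ∑ ρ ∈ Finset.range N0, (if p.1.1 % N0 = ρ then J p else 0) :=
          tsum_congr e2
      _ = ∑ ρ ∈ Finset.range N0, ∑' p : S, (if p.1.1 % N0 = ρ then J p else 0) :=
          Summable.tsum_finsetSum fun _ _ => ENNReal.summable
      _ ≤ ∑ ρ ∈ Finset.range N0, ∫⁻ y, ENNReal.ofReal (F y) :=
          Finset.sum_le_sum fun ρ _ => hres ρ
      _ = N0 * ∫⁻ y, ENNReal.ofReal (F y) := by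
          rw [Finset.sum_const, Finset.card_range, nsmul_eq_mul]
  have hFt : ∫⁻ y, ENNReal.ofReal (F y) ≠ ⊤ := by
    rw [← ofReal_integral_eq_lintegral_ofReal hF (ae_of_all _ hF0)]
    exact ENNReal.ofReal_ne_top
  have hNF : (N0 : ENNReal) * ∫⁻ y, ENNReal.ofReal (F y) ≠ ⊤ :=
    ENNReal.mul_ne_top (ENNReal.natCast_ne_top _) hFt
  have hJt : ∑' p, J p ≠ ⊤ := ne_top_of_le_ne_top hNF hJs
  have hJp : ∀ p, J p ≠ ⊤ := ENNReal.ne_top_of_tsum_ne_top hJt
  have hsum : Summable fun p => (J p).toReal := ENNReal.summable_toReal hJt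
  refine ⟨fun p => KK ^ 2 / (volume W).toReal * M * (J p).toReal, hsum.mul_left _, ?_, ?_⟩
  · rw [tsum_mul_left]
    have e3 : KK ^ 2 / (volume W).toReal * N0 * M * ∫ y, F y =
        KK ^ 2 / (volume W).toReal * M * (N0 * ∫ y, F y) := by ring
    rw [e3]
    refine mul_le_mul_of_nonneg_left ?_ (by positivity)
    rw [← ENNReal.tsum_toReal_eq hJp, integral_eq_lintegral_of_nonneg_ae (ae_of_all _ hF0)
      hF.aestronglyMeasurable]
    have h9 := ENNReal.toReal_mono hNF hJs
    rw [ENNReal.toReal_mul, ENNReal.toReal_natCast] at h9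
    exact h9
  · intro p x hx
    have hchg := Pool.Agent.H1.RO.chg isOpen_ball hAm hAb (G := br P Q c s p.1)
      ((br_diff h (hS p.2)).mono h8) ((br_inj h (hS p.2)).mono (hAb.trans h8))
      (fun y => ENNReal.ofReal (F y))
    set T : ℝ := ‖deriv (br P Q c s p.1) x‖ ^ 2 * F (br P Q c s p.1 x) with hT
    have hT0 : 0 ≤ T := mul_nonneg (by positivity) (hF0 _)
    have hle : ENNReal.ofReal T * volume W ≤ ENNReal.ofReal (KK ^ 2 * M) * J p := by
      have e0 : J p = ∫⁻ y in W, ENNReal.ofReal (‖deriv (br P Q c s p.1) y‖ ^ 2) *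
          ENNReal.ofReal (F (br P Q c s p.1 y)) := hchg
      rw [e0, ← lintegral_const_mul' _ _ ENNReal.ofReal_ne_top, ← setLIntegral_const]
      refine setLIntegral_mono' hAm fun z hz => ?_
      rw [← ENNReal.ofReal_mul (by positivity), ← ENNReal.ofReal_mul (by positivity)]
      apply ENNReal.ofReal_le_ofReal
      have e1 := (koe_der h (hS p.2) (h68 hx) (hAb hz)).2
      have e2 := hcmp p.1 p.2 x hx z (ball_subset_ball (by linarith) (hW1 hz))
      have e3 : ‖deriv (br P Q c s p.1) x‖ ^ 2 ≤ (KK * ‖deriv (br P Q c s p.1) z‖) ^ 2 := by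
        gcongr
      calc T ≤ (KK * ‖deriv (br P Q c s p.1) z‖) ^ 2 * (M * F (br P Q c s p.1 z)) :=
            mul_le_mul e3 e2 (hF0 _) (by positivity)
        _ = KK ^ 2 * M * (‖deriv (br P Q c s p.1) z‖ ^ 2 * F (br P Q c s p.1 z)) := by ring
    have h5 := ENNReal.toReal_mono (ENNReal.mul_ne_top ENNReal.ofReal_ne_top (hJp p)) hle
    rw [ENNReal.toReal_mul, ENNReal.toReal_mul, ENNReal.toReal_ofReal hT0,
      ENNReal.toReal_ofReal (by positivity)] at h5
    have h6 : KK ^ 2 / (volume W).toReal * M * (J p).toReal =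
        KK ^ 2 * M * (J p).toReal / (volume W).toReal := by ring
    show T ≤ KK ^ 2 / (volume W).toReal * M * (J p).toReal
    rw [h6, le_div_iff₀ hV]
    exact h5

/-- majorants for `EE` and `R1` from a window -/
theorem mj_win (h : PS0 d P Q PA c s) {x' : ℂ} {r' : ℝ} {N0 : ℕ}
    (hW : Win P Q c s (EE P Q c A ∪ R1 P Q c A) x' r' N0) {c' : ℂ} {R : ℝ}
    (hR : ∀ p ∈ R1 P Q c A, MapsTo (br P Q c s p) (ball c (6 * s)) (ball c' R)) :
    Mj P Q c s A := by
  classical
  refine ⟨win_maj h (fun p hp => hp.1) (hW.mono subset_union_left), ?_⟩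
  obtain ⟨C, hC, hmaj⟩ := win_maj h (S := R1 P Q c A) (fun p hp => hp.1)
    (hW.mono subset_union_right)
  have hint : Integrable (indicator (ball c' R) (fun _ : ℂ => (1 : ℝ))) := by
    rw [integrable_indicator_iff measurableSet_ball]
    exact integrableOn_const measure_ball_lt_top.ne
  obtain ⟨u, hu1, -, hu3⟩ := hmaj (indicator (ball c' R) (fun _ : ℂ => (1 : ℝ))) 1 hint
    (fun y => indicator_nonneg (fun _ _ => zero_le_one) y) zero_le_one
    (fun p hp x hx z hz => by
      rw [indicator_of_mem (hR p hp hx), indicator_of_mem (hR p hp hz), one_mul])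
  refine ⟨u, hu1, fun p w hw => ?_⟩
  have h1 := hu3 p w hw
  rw [indicator_of_mem (hR p.1 p.2 hw), mul_one] at h1
  exact h1

end Pool.Agent.H42.PP
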