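import Pool.Agent.H42.PP.Koe
import Pool.Agent.H1.PU.Ker
import Pool.Agent.H1.RO.Chg
import Pool.Agent.H50.ST.OPA

/-!
# THEOREM P+, module Ent: sums over `EE` (copy of H1/PU/Ent for an arbitrary centre and a set `A` with majorants)
-/

set_option autoImplicit false

open Filter Topology Polynomial OnePoint Metric Set MeasureTheory

namespace Pool.Agent.H42.PP

open Pool.Agent.H44.Fatou Pool.Agent.H32.BT Pool.Agent.H80.AJ Pool.Agent.H35.EX Pool.Agent.H61.TT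
open Pool.Agent.H1.PU

variable {d : ℕ} {P Q : Polynomial ℂ} {PA : Set (OnePoint ℂ)} {c : ℂ} {s : ℝ}

variable {A : Set ℂ}

/-- the constant in the comparison of the kernels -/
noncomputable def CK : ℝ := (1 + 96 * KK) ^ 5

theorem CK_pos : 0 < CK := by
  unfold CK
  have := KK_pos
  positivity

theorem mem_PA_nim (h : PS0 d P Q PA c s) {b : ℂ} (hb : (b : OnePoint ℂ) ∈ PA) {p : ℕ × ℂ}
    (hp : p ∈ IX P Q c) : b ∉ br P Q c s p '' ball c (8 * s) := by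
  rintro ⟨u, hu, rfl⟩
  have h0 := h.s0
  exact br_off h hp (ball_subset_ball (by have := rho_ge h0; linarith) hu) hb

theorem lam_nim (h : PS0 d P Q PA c s) {a : ℂ} (ha : a ∈ LAM P Q c s) {p : ℕ × ℂ}
    (hp : p ∈ IX P Q c) : a ∉ br P Q c s p '' ball c (8 * s) := by
  rintro ⟨u, hu, rfl⟩
  have h0 := h.s0
  exact ha p.1 u hu (br_inv h hp (ball_subset_ball (by have := rho_ge h0; linarith) hu))

theorem inv_cmp (h : PS0 d P Q PA c s) {p : ℕ × ℂ} (hp : p ∈ IX P Q c) {x z b : ℂ}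
    (hx : x ∈ ball c (6 * s)) (hz : z ∈ ball c (6 * s))
    (hb : b ∉ br P Q c s p '' ball c (8 * s)) :
    ‖br P Q c s p x - b‖⁻¹ ≤ (1 + 96 * KK) * ‖br P Q c s p z - b‖⁻¹ := by
  have hK := KK_pos
  have h1 := koe_cmp h hp hx hz hb
  have h68 : ball c (6 * s) ⊆ ball c (8 * s) := ball_subset_ball (by have := h.s0; linarith)
  have h2 : 0 < ‖br P Q c s p x - b‖ := by
    rw [norm_pos_iff, sub_ne_zero]
    intro he
    exact hb ⟨x, h68 hx, he⟩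
  have h3 : 0 < ‖br P Q c s p z - b‖ := by
    rw [norm_pos_iff, sub_ne_zero]
    intro he
    exact hb ⟨z, h68 hz, he⟩
  rw [← div_eq_mul_inv, inv_eq_one_div, div_le_div_iff₀ h2 h3, one_mul]
  exact h1

theorem ka_cmp (h : PS0 d P Q PA c s) {a : ℂ} (ha : a ∈ LAM P Q c s) {p : ℕ × ℂ} (hp : p ∈ IX P Q c) {x z : ℂ}
    (hx : x ∈ ball c (6 * s)) (hz : z ∈ ball c (6 * s)) :
    ‖KA a (br P Q c s p x)‖ ≤ CK * ‖KA a (br P Q c s p z)‖ := by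
  have hK := KK_pos
  set k : ℝ := 1 + 96 * KK with hk
  have hk1 : 1 ≤ k := by rw [hk]; linarith
  have h1 := inv_cmp h hp hx hz (mem_PA_nim h h.z0 hp)
  have h2 := inv_cmp h hp hx hz (mem_PA_nim h h.z1 hp)
  have h3 := inv_cmp h hp hx hz (lam_nim h ha hp)
  have e : ∀ y : ℂ, ‖KA a y‖ = ‖a * (a - 1)‖ * (‖y - 0‖⁻¹ * ‖y - 1‖⁻¹ * ‖y - a‖⁻¹) := by
    intro y
    unfold KA
    rw [norm_div, norm_mul (y * (y - 1)), norm_mul y, sub_zero]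
    rw [div_eq_mul_inv, mul_inv, mul_inv]
  rw [e, e]
  calc ‖a * (a - 1)‖ * (‖br P Q c s p x - 0‖⁻¹ * ‖br P Q c s p x - 1‖⁻¹ * ‖br P Q c s p x - a‖⁻¹)
      ≤ ‖a * (a - 1)‖ * ((k * ‖br P Q c s p z - 0‖⁻¹) * (k * ‖br P Q c s p z - 1‖⁻¹) *
        (k * ‖br P Q c s p z - a‖⁻¹)) := by gcongr
    _ = k ^ 3 * (‖a * (a - 1)‖ * (‖br P Q c s p z - 0‖⁻¹ * ‖br P Q c s p z - 1‖⁻¹ *
        ‖br P Q c s p z - a‖⁻¹)) := by ring
    _ ≤ CK * (‖a * (a - 1)‖ * (‖br P Q c s p z - 0‖⁻¹ * ‖br P Q c s p z - 1‖⁻¹ *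
        ‖br P Q c s p z - a‖⁻¹)) := by
      refine mul_le_mul_of_nonneg_right ?_ (by positivity)
      unfold CK
      exact pow_le_pow_right₀ hk1 (by norm_num)

theorem kd_cmp (h : PS0 d P Q PA c s) {a v : ℂ} (ha : a ∈ LAM P Q c s) (hv : v ∈ LAM P Q c s) {p : ℕ × ℂ}
    (hp : p ∈ IX P Q c) {x z : ℂ} (hx : x ∈ ball c (6 * s)) (hz : z ∈ ball c (6 * s)) :
    KD a v (br P Q c s p x) ≤ CK * KD a v (br P Q c s p z) := by
  have hK := KK_pos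
  set k : ℝ := 1 + 96 * KK with hk
  have hk1 : 1 ≤ k := by rw [hk]; linarith
  have h1 := inv_cmp h hp hx hz (mem_PA_nim h h.z0 hp)
  have h2 := inv_cmp h hp hx hz (mem_PA_nim h h.z1 hp)
  have h3 := inv_cmp h hp hx hz (lam_nim h ha hp)
  have h4 := inv_cmp h hp hx hz (lam_nim h hv hp)
  have h5 := koe_cmp h hp hz hx (mem_PA_nim h h.z0 hp)
  rw [← hk] at h5
  rw [sub_zero, sub_zero] at h1 h5
  have e : ∀ y : ℂ, KD a v y = ‖a - v‖ * (‖y‖ * ‖a + v - 1‖ + ‖a * v‖) *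
      (‖y‖⁻¹ * ‖y - 1‖⁻¹ * ‖y - a‖⁻¹ * ‖y - v‖⁻¹) := by
    intro y
    unfold KD
    rw [div_eq_mul_inv, mul_inv, mul_inv, mul_inv]
  rw [e, e]
  have h6 : ‖br P Q c s p x‖ * ‖a + v - 1‖ + ‖a * v‖ ≤
      k * (‖br P Q c s p z‖ * ‖a + v - 1‖ + ‖a * v‖) := by
    have h7 : ‖a * v‖ ≤ k * ‖a * v‖ := le_mul_of_one_le_left (norm_nonneg _) hk1
    calc ‖br P Q c s p x‖ * ‖a + v - 1‖ + ‖a * v‖
        ≤ (k * ‖br P Q c s p z‖) * ‖a + v - 1‖ + k * ‖a * v‖ := by gcongr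
      _ = k * (‖br P Q c s p z‖ * ‖a + v - 1‖ + ‖a * v‖) := by ring
  calc ‖a - v‖ * (‖br P Q c s p x‖ * ‖a + v - 1‖ + ‖a * v‖) *
        (‖br P Q c s p x‖⁻¹ * ‖br P Q c s p x - 1‖⁻¹ * ‖br P Q c s p x - a‖⁻¹ *
          ‖br P Q c s p x - v‖⁻¹)
      ≤ ‖a - v‖ * (k * (‖br P Q c s p z‖ * ‖a + v - 1‖ + ‖a * v‖)) *
        ((k * ‖br P Q c s p z‖⁻¹) * (k * ‖br P Q c s p z - 1‖⁻¹) * (k * ‖br P Q c s p z - a‖⁻¹) *
          (k * ‖br P Q c s p z - v‖⁻¹)) := by gcongr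
    _ = k ^ 5 * (‖a - v‖ * (‖br P Q c s p z‖ * ‖a + v - 1‖ + ‖a * v‖) *
        (‖br P Q c s p z‖⁻¹ * ‖br P Q c s p z - 1‖⁻¹ * ‖br P Q c s p z - a‖⁻¹ *
          ‖br P Q c s p z - v‖⁻¹)) := by ring

/-- the functions `EA a`: uniform convergence, bound -/
theorem ea_bd (h : PS0 d P Q PA c s) (hA : Mj P Q c s A) :
    ∃ C : ℝ, 0 ≤ C ∧ ∀ a ∈ LAM P Q c s, Pool.H50.ST.Bd c (6 * s) (C * ∫ y, ‖KA a y‖) (EA P Q c s A a) ∧
      ∃ u : EE P Q c A → ℝ, Summable u ∧ ∀ (p : EE P Q c A), ∀ x ∈ ball c (6 * s),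
        ‖deriv (br P Q c s p.1) x ^ 2 * KA a (br P Q c s p.1 x)‖ ≤ u p := by
  have h0 := h.s0
  obtain ⟨C, hC, hmaj⟩ := hA.ee
  have h6 : ball c (6 * s) ⊆ ball c (rho s) :=
    ball_subset_ball (by have := rho_ge h0; linarith)
  have h68 : ball c (6 * s) ⊆ ball c (8 * s) := ball_subset_ball (by linarith)
  refine ⟨C * CK, mul_nonneg hC CK_pos.le, ?_⟩
  intro a ha
  obtain ⟨u, hu1, hu2, hu3⟩ := hmaj (fun y => ‖KA a y‖) CK (ka_int a).norm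
    (fun y => norm_nonneg _) CK_pos.le (fun p hp x hx z hz => ka_cmp h ha hp.1 hx hz)
  have hu4 : ∀ (p : EE P Q c A), ∀ x ∈ ball c (6 * s),
      ‖deriv (br P Q c s p.1) x ^ 2 * KA a (br P Q c s p.1 x)‖ ≤ u p := by
    intro p x hx
    rw [norm_mul, norm_pow]
    exact hu3 p x hx
  refine ⟨⟨?_, ?_⟩, u, hu1, hu4⟩
  · refine Complex.differentiableOn_tsum_of_summable_norm hu1 (fun p => ?_) isOpen_ball hu4
    have hd := (br_diff h p.2.1).mono h6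
    have hne0 : ∀ x ∈ ball c (6 * s), br P Q c s p.1 x ≠ 0 := fun x hx he =>
      mem_PA_nim h h.z0 p.2.1 ⟨x, h68 hx, he⟩
    have hne1 : ∀ x ∈ ball c (6 * s), br P Q c s p.1 x ≠ 1 := fun x hx he =>
      mem_PA_nim h h.z1 p.2.1 ⟨x, h68 hx, he⟩
    have hnea : ∀ x ∈ ball c (6 * s), br P Q c s p.1 x ≠ a := fun x hx he =>
      lam_nim h ha p.2.1 ⟨x, h68 hx, he⟩
    refine DifferentiableOn.mul ((hd.deriv isOpen_ball).pow 2) ?_
    unfold KA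
    refine DifferentiableOn.div (differentiableOn_const _) ((hd.mul (hd.sub_const 1)).mul
      (hd.sub_const a)) fun x hx => ?_
    exact mul_ne_zero (mul_ne_zero (hne0 x hx) (sub_ne_zero.2 (hne1 x hx)))
      (sub_ne_zero.2 (hnea x hx))
  · intro x hx
    have h1 : Summable fun p : EE P Q c A =>
        ‖deriv (br P Q c s p.1) x ^ 2 * KA a (br P Q c s p.1 x)‖ :=
      Summable.of_nonneg_of_le (fun _ => norm_nonneg _) (fun p => hu4 p x hx) hu1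
    unfold EA
    calc ‖∑' p : EE P Q c A, deriv (br P Q c s p.1) x ^ 2 * KA a (br P Q c s p.1 x)‖
        ≤ ∑' p : EE P Q c A, ‖deriv (br P Q c s p.1) x ^ 2 * KA a (br P Q c s p.1 x)‖ :=
          norm_tsum_le_tsum_norm h1
      _ ≤ ∑' p, u p := h1.tsum_le_tsum (fun p => hu4 p x hx) hu1
      _ ≤ C * CK * ∫ y, ‖KA a y‖ := hu2

end Pool.Agent.H42.PP
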