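import Pool.Agent.H42.PP.BraC
import Pool.Agent.H42.PP.Ent
import Pool.Agent.H1.PU.Idn

/-!
# THEOREM P+, module Idn: the identity for an arbitrary centre (copy of H1/PU/Idn)

The statement is for a set `S` of points `z` of `LAM` with bounded kernel on the images of `R1`; a critical point may belong to `S`.
-/

set_option autoImplicit false

open Filter Topology Polynomial OnePoint Metric Set MeasureTheory

namespace Pool.Agent.H42.PP

open Pool.Agent.H44.Fatou Pool.Agent.H32.BT Pool.Agent.H80.AJ Pool.Agent.H35.EX Pool.Agent.H61.TT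
open Pool.Agent.H1.PU

variable {d : ℕ} {P Q : Polynomial ℂ} {PA : Set (OnePoint ℂ)} {c : ℂ} {s : ℝ}

variable {A : Set ℂ}

private theorem pa_lam (h : PS0 d P Q PA c s) {a : ℂ} (ha : (a : OnePoint ℂ) ∈ PA) : a ∈ LAM P Q c s := by
  intro n u hu he
  have h0 := h.s0
  apply h.off u (ball_subset_ball (by have := rho_ge h0; linarith) hu)
  rw [← he]
  exact iter_mem h.sys.inv ha n

private theorem lam_step {a : ℂ} (ha : a ∈ LAM P Q c s) (hQ : Q.eval a ≠ 0) : gg P Q a ∈ LAM P Q c s := by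
  intro n u hu he
  apply ha (n + 1) u hu
  rw [Function.iterate_succ_apply, rat_coe_of_ne hQ]
  exact he

theorem tt_zero (h : PS0 d P Q PA c s) {x : ℂ} (hx : x ∈ ball c (6 * s)) (z : ℂ) :
    TT P Q c s x z (0, c) = KA z x := by
  have h0 := h.s0
  have hx' : x ∈ ball c (rho s) := ball_subset_ball (by have := rho_ge h0; linarith) hx
  have h1 := br_zero h
  unfold TT
  rw [h1 hx']
  have h2 : br P Q c s (0, c) =ᶠ[𝓝 x] id := by
    filter_upwards [isOpen_ball.mem_nhds hx'] with v hv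
    exact h1 hv
  rw [h2.deriv_eq, deriv_id, one_pow, one_mul]
  rfl

/-- the sum over the entries of positive order and the first returns -/
theorem tot_sum (h : PS0 d P Q PA c s) (hA : Mj P Q c s A) {x z : ℂ} (hx : x ∈ ball c (6 * s))
    (hz : z ∈ LAM P Q c s) (hzB : BK P Q c s A z) :
    HasSum (TT P Q c s x z ∘ (Subtype.val : (E1 P Q c A ∪ R1 P Q c A : Set (ℕ × ℂ)) → ℕ × ℂ))
      (EA P Q c s A z x - KA z x + Pool.H50.ST.Lop (g1 P Q c s A) (KA z) x) := by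
  have h0 := h.s0
  obtain ⟨C', -, hbd⟩ := ea_bd h hA
  obtain ⟨-, u, hu1, hu2⟩ := hbd z hz
  have hsE : Summable (TT P Q c s x z ∘ (Subtype.val : EE P Q c A → ℕ × ℂ)) :=
    Summable.of_norm_bounded hu1 (fun p => hu2 p x hx)
  have hsub : E1 P Q c A ⊆ EE P Q c A := fun p hp => hp.1
  have hs1 : Summable (TT P Q c s x z ∘ (Subtype.val : E1 P Q c A → ℕ × ℂ)) := by
    have := hsE.comp_injective (Set.inclusion_injective hsub)
    exact this
  have h1 : HasSum (TT P Q c s x z ∘ (Subtype.val : ({((0 : ℕ), c)} : Set (ℕ × ℂ)) → ℕ × ℂ))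
      (KA z x) := by
    have h2 := hasSum_fintype (TT P Q c s x z ∘ (Subtype.val : ({((0 : ℕ), c)} : Set (ℕ × ℂ)) → ℕ × ℂ))
    rw [Fintype.sum_unique] at h2
    have h3 : (TT P Q c s x z ∘ (Subtype.val : ({((0 : ℕ), c)} : Set (ℕ × ℂ)) → ℕ × ℂ)) default =
        KA z x := tt_zero h hx z
    rw [h3] at h2
    exact h2
  have h2 := h1.add_disjoint e1_disj hs1.hasSum
  rw [← ee_eq] at h2
  have h3 : EA P Q c s A z x = KA z x + ∑' p, (TT P Q c s x z ∘ (Subtype.val : E1 P Q c A → ℕ × ℂ)) p :=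
    h2.tsum_eq
  have h4 : HasSum (TT P Q c s x z ∘ (Subtype.val : E1 P Q c A → ℕ × ℂ))
      (EA P Q c s A z x - KA z x) := by
    have h5 := hs1.hasSum
    have h6 : EA P Q c s A z x - KA z x =
        ∑' p, (TT P Q c s x z ∘ (Subtype.val : E1 P Q c A → ℕ × ℂ)) p := by
      rw [h3]; ring
    rw [h6]
    exact h5
  refine h4.add_disjoint e1_r1 ?_
  -- the exits
  obtain ⟨v, hv1, hv2⟩ := hA.r1
  obtain ⟨B, hB⟩ := hzB
  have hsR : Summable (TT P Q c s x z ∘ (Subtype.val : R1 P Q c A → ℕ × ℂ)) := by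
    refine Summable.of_norm_bounded (hv1.mul_right B) fun p => ?_
    have e1 := hv2 p x hx
    have e3 := hB p.1 p.2 x hx
    show ‖deriv (br P Q c s p.1) x ^ 2 * KA z (br P Q c s p.1 x)‖ ≤ _
    rw [norm_mul, norm_pow]
    exact mul_le_mul e1 e3 (norm_nonneg _) ((by positivity : (0 : ℝ) ≤ _ ^ 2).trans e1)
  exact hsR.hasSum

/-- the sum, arranged by the fibres over the entries -/
private theorem ee_split (n : ℕ) (y : ℂ) (hQ : Q.eval y ≠ 0) :
    ((n, gg P Q y) ∈ EE P Q c A ∧ (n + 1, y) ∈ IX P Q c) ↔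
      ((n + 1, y) ∈ EE P Q c A ∨ (n + 1, y) ∈ R1 P Q c A) := by
  have h1 : (n, gg P Q y) ∈ EE P Q c A ↔
      ((n + 1, y) ∈ EE P Q c A ∨ (n + 1, y) ∈ R1 P Q c A) := succ_iff (rat_coe_of_ne hQ)
  exact ⟨fun h => h1.1 h.1, fun h => ⟨h1.2 h, h.elim (fun h => h.1) (fun h => h.1)⟩⟩

theorem fib_sum (h : PS0 d P Q PA c s) (hA : Mj P Q c s A) {x z : ℂ} (hx : x ∈ ball c (6 * s))
    (hz : z ∈ LAM P Q c s) (hzB : BK P Q c s A z) :
    HasSum (fun p : EE P Q c A => ∑ y ∈ fs P Q p.1.2, TT P Q c s x z (p.1.1 + 1, y))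
      (EA P Q c s A z x - KA z x + Pool.H50.ST.Lop (g1 P Q c s A) (KA z) x) := by
  have hmem : ∀ (p : EE P Q c A) (y : fs P Q p.1.2), (p.1.1 + 1, (y : ℂ)) ∈
      (E1 P Q c A ∪ R1 P Q c A : Set (ℕ × ℂ)) := by
    intro p y
    obtain ⟨h1, h2, h3⟩ := fib_ix h (n := p.1.1) (y := p.1.2) p.2.1 y.2
    have h4 := (ee_split (P := P) (Q := Q) (c := c) (A := A) p.1.1 (y : ℂ) h2).1
      ⟨by rw [h3]; exact p.2, h1⟩
    rcases h4 with h4 | h4
    · exact Or.inl ⟨h4, Nat.succ_le_succ (Nat.zero_le _)⟩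
    · exact Or.inr h4
  set e : (Σ p : EE P Q c A, fs P Q p.1.2) → (E1 P Q c A ∪ R1 P Q c A : Set (ℕ × ℂ)) :=
    fun q => ⟨(q.1.1.1 + 1, (q.2 : ℂ)), hmem q.1 q.2⟩ with he
  have hinj : Function.Injective e := by
    rintro ⟨⟨⟨n, w⟩, hp⟩, ⟨y, hy⟩⟩ ⟨⟨⟨n', w'⟩, hp'⟩, ⟨y', hy'⟩⟩ hee
    have h1 := congrArg Subtype.val hee
    simp only [he, Prod.mk.injEq, add_left_inj] at h1
    obtain ⟨h2, h3⟩ := h1
    have h4 := ((mem_fs h.rd w y).1 hy).2
    have h5 := ((mem_fs h.rd w' y').1 hy').2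
    subst h2
    subst h3
    rw [h4] at h5
    subst h5
    rfl
  have hsurj : Function.Surjective e := by
    rintro ⟨⟨m, y⟩, hq⟩
    have h1 : (m, y) ∈ IX P Q c ∧ 1 ≤ m ∧ ((m, y) ∈ EE P Q c A ∨ (m, y) ∈ R1 P Q c A) := by
      rcases hq with hq | hq
      · exact ⟨hq.1.1, hq.2, Or.inl hq.1⟩
      · exact ⟨hq.1, hq.2.1, Or.inr hq⟩
    obtain ⟨h2, h3, h4⟩ := h1
    obtain ⟨n, rfl⟩ := Nat.exists_eq_add_of_le' h3
    obtain ⟨h5, h6⟩ := (ix_step h).1 h2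
    have h7 := (ee_split (P := P) (Q := Q) (c := c) (A := A) n y h5).2 h4
    exact ⟨⟨⟨(n, gg P Q y), h7.1⟩, ⟨y, (mem_fs h.rd _ _).2 ⟨h5, rfl⟩⟩⟩, rfl⟩
  have h1 := tot_sum h hA hx hz hzB
  rw [← (Equiv.ofBijective e ⟨hinj, hsurj⟩).hasSum_iff] at h1
  refine h1.sigma fun p => ?_
  have h2 := hasSum_fintype (fun y : fs P Q p.1.2 => TT P Q c s x z (p.1.1 + 1, (y : ℂ)))
  rw [Finset.sum_coe_sort (fs P Q p.1.2) (fun y => TT P Q c s x z (p.1.1 + 1, y))] at h2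
  exact h2

/-- **the identity** -/
theorem idn (h : PS0 d P Q PA c s) (hA : Mj P Q c s A) {S : Set ℂ}
    (hS : ∀ z ∈ S, z ∈ LAM P Q c s ∧ Q.eval z ≠ 0 ∧ BK P Q c s A z)
    (hinf : S.Infinite) {x : ℂ} (hx : x ∈ ball c (6 * s)) :
    ∃ N : Polynomial ℂ, N.natDegree ≤ 2 * d ∧
      ∀ z ∈ S, dg P Q z * (EA P Q c s A z x - KA z x + Pool.H50.ST.Lop (g1 P Q c s A) (KA z) x) =
          EA P Q c s A (gg P Q z) x + N.eval z / Q.eval z ^ 2 := by
  have h0 := h.s0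
  have h68 : ball c (6 * s) ⊆ ball c (8 * s) := ball_subset_ball (by linarith)
  have hx' : x ∈ ball c (rho s) := ball_subset_ball (by have := rho_ge h0; linarith) hx
  have hbn : ∀ {q : ℕ × ℂ}, q ∈ IX P Q c → br P Q c s q x ≠ 0 ∧ br P Q c s q x ≠ 1 := by
    intro q hq
    exact ⟨fun he => mem_PA_nim h h.z0 hq ⟨x, h68 hx, he⟩,
      fun he => mem_PA_nim h h.z1 hq ⟨x, h68 hx, he⟩⟩
  -- the polynomials
  have hex : ∀ p : EE P Q c A, ∃ N : Polynomial ℂ, N.natDegree ≤ 2 * d ∧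
      ∀ z : ℂ, Q.eval z ≠ 0 → gg P Q z ≠ br P Q c s p.1 x →
        dg P Q z * ∑ y ∈ fs P Q p.1.2, TT P Q c s x z (p.1.1 + 1, y) =
          TT P Q c s x (gg P Q z) p.1 + N.eval z / Q.eval z ^ 2 := by
    rintro ⟨⟨n, w⟩, hp⟩
    obtain ⟨himg, hinj⟩ := fib_img h hp.1 hx'
    obtain ⟨N, hN1, hN2⟩ := lagr_ka h.rd (br_reg h hp.1 hx') (hbn hp.1).1 (hbn hp.1).2
      (fun y hy => by
        rw [himg] at hy
        obtain ⟨y', hy', rfl⟩ := Finset.mem_image.1 hy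
        exact hbn (fib_ix h hp.1 hy').1)
    refine ⟨C (deriv (br P Q c s (n, w)) x ^ 2) * N, (natDegree_C_mul_le _ _).trans hN1, ?_⟩
    intro z hz hzn
    have h1 := hN2 z hz hzn
    rw [himg, Finset.sum_image hinj] at h1
    have h2 : ∑ y ∈ fs P Q w, TT P Q c s x z (n + 1, y) = deriv (br P Q c s (n, w)) x ^ 2 *
        ∑ y ∈ fs P Q w, KA z (br P Q c s (n + 1, y) x) / dg P Q (br P Q c s (n + 1, y) x) ^ 2 := by
      rw [Finset.mul_sum]
      refine Finset.sum_congr rfl fun y hy => ?_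
      obtain ⟨hi1, hi2, hi3⟩ := fib_ix h hp.1 hy
      obtain ⟨-, -, -, hd1, -, hd2⟩ := br_der h hi1 hx'
      rw [hi3] at hd2
      unfold TT
      rw [← hd2, mul_pow]
      field_simp
    show dg P Q z * ∑ y ∈ fs P Q w, TT P Q c s x z (n + 1, y) =
      TT P Q c s x (gg P Q z) (n, w) + _
    rw [h2, eval_mul, eval_C]
    unfold TT
    linear_combination (deriv (br P Q c s (n, w)) x ^ 2) * h1
  choose N hN1 hN2 using hex
  have hEA : ∀ z ∈ LAM P Q c s, HasSum (fun p : EE P Q c A => TT P Q c s x z p.1)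
      (EA P Q c s A z x) := by
    intro z hz
    obtain ⟨C', -, hbd⟩ := ea_bd h hA
    obtain ⟨-, u, hu1, hu2⟩ := hbd z hz
    have hsE : Summable (fun p : EE P Q c A => TT P Q c s x z p.1) :=
      Summable.of_norm_bounded hu1 (fun p => hu2 p x hx)
    exact hsE.hasSum
  have hsum : ∀ z ∈ S,
      HasSum (fun p => (N p).eval z) ((dg P Q z * (EA P Q c s A z x - KA z x +
        Pool.H50.ST.Lop (g1 P Q c s A) (KA z) x) - EA P Q c s A (gg P Q z) x) *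
          Q.eval z ^ 2) := by
    intro z hzS
    obtain ⟨hz, hQ, hzB⟩ := hS z hzS
    have h1 := (fib_sum h hA hx hz hzB).mul_left (dg P Q z)
    have h2 := hEA _ (lam_step hz hQ)
    have h3 := (h1.sub h2).mul_right (Q.eval z ^ 2)
    have h4 : (fun p : EE P Q c A => (dg P Q z * ∑ y ∈ fs P Q p.1.2, TT P Q c s x z (p.1.1 + 1, y) -
        TT P Q c s x (gg P Q z) p.1) * Q.eval z ^ 2) = fun p => (N p).eval z := by
      funext p
      have h5 := hN2 p z hQ (fun he => lam_nim h (lam_step hz hQ) p.2.1 ⟨x, h68 hx, he.symm⟩)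
      rw [h5, add_sub_cancel_left, div_mul_cancel₀ _ (pow_ne_zero 2 hQ)]
    rw [← h4]
    exact h3
  obtain ⟨M, hM1, hM2⟩ := lim_hasSum hN1 hinf (fun z hz => (hsum z hz).summable)
  refine ⟨M, hM1, ?_⟩
  intro z hz
  have h1 := (hM2 z).unique (hsum z hz)
  rw [h1]
  have hQ : Q.eval z ≠ 0 := (hS z hz).2.1
  field_simp
  ring

end Pool.Agent.H42.PP
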