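import Pool.Agent.H42.PP.Opr
import Pool.Agent.H50.ST.XiA

/-!
# THEOREM P+, module Lin: linearity of the operator `Lop` on bounded holomorphic functions; interpolation

`lop_pol`: if `N z w` (`z` in an infinite set `S`) is, for every `w` of the disc, a polynomial of degree `≤ D` in `z ∈ S`, and `G z = N z + L (G z)` on the disc for `z ∈ S`, then the same is true for `G z w`.
-/

set_option autoImplicit false

namespace Pool.Agent.H42.PP

open Metric Filter Topology Polynomial Pool.H50.ST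

variable {ι : Type*} {c : ℂ} {δ : ℝ} {g : ι → ℂ → ℂ} {u : ι → ℝ}

theorem lop_sm (hδ : 0 < δ) (hs : Sys c δ g u) {F : ℂ → ℂ} {M : ℝ} (hF : Bd c (2 * δ) M F) {w : ℂ}
    (hw : w ∈ ball c (2 * δ)) : Summable fun i => deriv (g i) w ^ 2 * F (g i w) := by
  have hM : 0 ≤ M := (norm_nonneg _).trans (hF.2 c (mem_ball_self (by linarith)))
  refine Summable.of_norm_bounded (hs.su.mul_left M) fun i => ?_
  rw [norm_mul, norm_pow, mul_comm]
  exact mul_le_mul (hF.2 _ (ball_subset_ball (by linarith) (hs.mp i w hw))) (hs.dv i w hw)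
    (by positivity) hM

theorem lop_add (hδ : 0 < δ) (hs : Sys c δ g u) {F G : ℂ → ℂ} {M N : ℝ} (hF : Bd c (2 * δ) M F)
    (hG : Bd c (2 * δ) N G) {w : ℂ} (hw : w ∈ ball c (2 * δ)) :
    Lop g (fun w => F w + G w) w = Lop g F w + Lop g G w := by
  unfold Lop
  rw [← (lop_sm hδ hs hF hw).tsum_add (lop_sm hδ hs hG hw)]
  refine tsum_congr fun i => ?_
  ring

theorem lop_smul (z : ℂ) (F : ℂ → ℂ) (w : ℂ) : Lop g (fun w => z * F w) w = z * Lop g F w := by
  unfold Lop
  rw [← tsum_mul_left]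
  refine tsum_congr fun i => ?_
  ring

/-- the image of a bounded function -/
theorem lop_bdd (hδ : 0 < δ) (hs : Sys c δ g u) {F : ℂ → ℂ} {M : ℝ} (hF : Bd c (2 * δ) M F) :
    ∃ N : ℝ, Bd c (2 * δ) N (Lop g F) := by
  have hM : 0 ≤ M := (norm_nonneg _).trans (hF.2 c (mem_ball_self (by linarith)))
  have hmap : ∀ i, ∀ w ∈ ball c (2 * δ), g i w ∈ ball c (2 * δ) := fun i w hw =>
    ball_subset_ball (by linarith) (hs.mp i w hw)
  have h1 : ∀ i, ∀ w ∈ ball c (2 * δ), ‖deriv (g i) w ^ 2 * F (g i w)‖ ≤ M * u i := by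
    intro i w hw
    rw [norm_mul, norm_pow, mul_comm]
    exact mul_le_mul (hF.2 _ (hmap i w hw)) (hs.dv i w hw) (by positivity) hM
  have hsu : Summable fun i => M * u i := hs.su.mul_left M
  refine ⟨∑' i, M * u i, ?_, ?_⟩
  · refine Complex.differentiableOn_tsum_of_summable_norm hsu (fun i => ?_) isOpen_ball h1
    have h2 : DifferentiableOn ℂ (deriv (g i)) (ball c (2 * δ)) := (hs.df i).deriv isOpen_ball
    exact (h2.pow 2).mul (hF.1.comp (hs.df i) (hmap i))
  · intro w hw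
    exact tsum_of_norm_bounded hsu.hasSum fun i => h1 i w hw

theorem bd_lsum (s : Finset ℂ) (l : ℂ → ℂ) (F : ℂ → ℂ → ℂ)
    (hF : ∀ j ∈ s, ∃ M, Bd c (2 * δ) M (F j)) :
    ∃ M, Bd c (2 * δ) M (fun w => ∑ j ∈ s, l j * F j w) := by
  classical
  induction s using Finset.induction_on with
  | empty =>
    refine ⟨0, ?_⟩
    simp only [Finset.sum_empty]
    exact ⟨differentiableOn_const 0, fun w _ => by rw [norm_zero]⟩
  | insert j s hj ih =>
    obtain ⟨M, hM⟩ := ih fun i hi => hF i (Finset.mem_insert_of_mem hi)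
    obtain ⟨N, hN⟩ := hF j (Finset.mem_insert_self j s)
    simp only [Finset.sum_insert hj]
    exact ⟨_, bd_add (bd_mul (l j) hN) hM⟩

theorem lop_lsum (hδ : 0 < δ) (hs : Sys c δ g u) (s : Finset ℂ) (l : ℂ → ℂ) (F : ℂ → ℂ → ℂ)
    (hF : ∀ j ∈ s, ∃ M, Bd c (2 * δ) M (F j)) {w : ℂ} (hw : w ∈ ball c (2 * δ)) :
    Lop g (fun w => ∑ j ∈ s, l j * F j w) w = ∑ j ∈ s, l j * Lop g (F j) w := by
  classical
  induction s using Finset.induction_on with
  | empty =>
    simp only [Finset.sum_empty]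
    unfold Lop
    simp
  | insert j s hj ih =>
    obtain ⟨M, hM⟩ := bd_lsum s l F fun i hi => hF i (Finset.mem_insert_of_mem hi)
    obtain ⟨N, hN⟩ := hF j (Finset.mem_insert_self j s)
    simp only [Finset.sum_insert hj]
    rw [lop_add hδ hs (bd_mul (l j) hN) hM hw, lop_smul,
      ih fun i hi => hF i (Finset.mem_insert_of_mem hi)]

/-- values of polynomials of bounded degree by interpolation -/
theorem pol_node {D : ℕ} {s : Finset ℂ} (hs : s.card = D + 1) {η : Polynomial ℂ}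
    (hη : η.natDegree ≤ D) (z : ℂ) :
    η.eval z = ∑ t ∈ s, (Lagrange.basis s id t).eval z * η.eval t := by
  have hinj : Set.InjOn (id : ℂ → ℂ) (s : Set ℂ) := Set.injOn_id _
  have h1 : η = Lagrange.interpolate s id (fun t => η.eval t) := by
    refine Lagrange.eq_interpolate_of_eval_eq _ hinj ?_ (fun t _ => rfl)
    rw [hs]
    exact (degree_le_of_natDegree_le hη).trans_lt (by exact_mod_cast Nat.lt_succ_self D)
  conv_lhs => rw [h1]
  rw [Lagrange.interpolate_apply, eval_finsetSum]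
  refine Finset.sum_congr rfl fun t _ => ?_
  rw [eval_mul, eval_C]
  ring

/-- a combination of the basis polynomials -/
theorem node_pol {D : ℕ} {s : Finset ℂ} (hs : s.card = D + 1) (a : ℂ → ℂ) :
    ∃ η : Polynomial ℂ, η.natDegree ≤ D ∧
      ∀ z, η.eval z = ∑ t ∈ s, (Lagrange.basis s id t).eval z * a t := by
  have hinj : Set.InjOn (id : ℂ → ℂ) (s : Set ℂ) := Set.injOn_id _
  refine ⟨Lagrange.interpolate s id a, ?_, fun z => ?_⟩
  · have h1 := Lagrange.degree_interpolate_lt a hinj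
    rw [hs] at h1
    refine Nat.le_of_lt_succ ?_
    by_cases h0 : Lagrange.interpolate s id a = 0
    · rw [h0, natDegree_zero]
      exact Nat.succ_pos D
    · exact (natDegree_lt_iff_degree_lt h0).2 h1
  · rw [Lagrange.interpolate_apply, eval_finsetSum]
    refine Finset.sum_congr rfl fun t _ => ?_
    rw [eval_mul, eval_C]
    ring

/-- **interpolation through the resolvent** -/
theorem lop_pol (hδ : 0 < δ) (hs : Sys c δ g u)
    (hno : ¬ ∃ (φ : ℂ → ℂ) (M : ℝ), Bd c (2 * δ) M φ ∧ (∃ w ∈ ball c δ, φ w ≠ 0) ∧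
      ∀ w ∈ ball c (2 * δ), φ w = Lop g φ w) {D : ℕ} {S : Set ℂ} (hS : S.Infinite)
    {N G : ℂ → ℂ → ℂ} (hN : ∀ w ∈ ball c (2 * δ), ∃ η : Polynomial ℂ, η.natDegree ≤ D ∧
      ∀ z ∈ S, N z w = η.eval z) (hG : ∀ z ∈ S, ∃ M, Bd c (2 * δ) M (G z))
    (hGN : ∀ z ∈ S, ∀ w ∈ ball c (2 * δ), G z w = N z w + Lop g (G z) w) :
    ∀ w ∈ ball c (2 * δ), ∃ η : Polynomial ℂ, η.natDegree ≤ D ∧ ∀ z ∈ S, G z w = η.eval z := by
  classical
  obtain ⟨s, hsS, hcard⟩ := hS.exists_subset_card_eq (D + 1)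
  intro w hw
  obtain ⟨η, hη, hηe⟩ := node_pol hcard (fun t => G t w)
  refine ⟨η, hη, fun z hz => ?_⟩
  rw [hηe]
  -- the difference is a fixed point
  have hsG : ∀ j ∈ s, ∃ M, Bd c (2 * δ) M (G j) := fun j hj => hG j (hsS hj)
  obtain ⟨M1, hM1⟩ := hG z hz
  obtain ⟨M2, hM2⟩ := bd_lsum s (fun t => (Lagrange.basis s id t).eval z) G hsG
  have hB := bd_add hM1 (bd_mul (-1) hM2)
  have hfix : ∀ w ∈ ball c (2 * δ),
      G z w + (-1) * ∑ t ∈ s, (Lagrange.basis s id t).eval z * G t w =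
      Lop g (fun w => G z w + (-1) * ∑ t ∈ s, (Lagrange.basis s id t).eval z * G t w) w := by
    intro w hw
    rw [lop_add hδ hs hM1 (bd_mul (-1) hM2) hw, lop_smul, lop_lsum hδ hs s _ G hsG hw]
    obtain ⟨ν, hν, hνe⟩ := hN w hw
    have h1 : N z w = ∑ t ∈ s, (Lagrange.basis s id t).eval z * N t w := by
      rw [hνe z hz, pol_node hcard hν z]
      exact Finset.sum_congr rfl fun t ht => by rw [hνe t (hsS ht)]
    have h2 : ∑ t ∈ s, (Lagrange.basis s id t).eval z * G t w =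
        ∑ t ∈ s, (Lagrange.basis s id t).eval z * N t w +
          ∑ t ∈ s, (Lagrange.basis s id t).eval z * Lop g (G t) w := by
      rw [← Finset.sum_add_distrib]
      refine Finset.sum_congr rfl fun t ht => ?_
      conv_lhs => rw [hGN t (hsS ht) w hw]
      ring
    rw [h2]
    conv_lhs => rw [hGN z hz w hw, h1]
    ring
  have h0 := opr_uniq hδ hs hno hB hfix w hw
  linear_combination h0

end Pool.Agent.H42.PP
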