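import Pool.Agent.H42.PP.FldB
import Pool.Agent.H42.PP.Idn
import Pool.Agent.H42.PP.Cty
import Pool.Agent.H42.PP.Lin
import Pool.Agent.H1.PU.Sum
import Pool.Agent.H1.PU.Ent

/-!
# THEOREM P+, module Base: the base disc `A` has majorants; the kernel is bounded

`mj_base`: `ee_maj`, `r1_sys` (H1/PU). `bk_base`: first returns land in `ball c (3 s)`. `ka_far`: the kernel `KA z` is bounded on `ball c (6 s)` if `z` is not in `ball c (8 s)`.
-/

set_option autoImplicit false

open Filter Topology Polynomial OnePoint Metric Set MeasureTheory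

namespace Pool.Agent.H42.PB

open Pool.Agent.H44.Fatou Pool.Agent.H32.BT Pool.Agent.H80.AJ Pool.Agent.H35.EX Pool.Agent.H61.TT
open Pool.Agent.H1.PU
open Pool.Agent.H42.PP (PS0 Mj BK)

variable {d : ℕ} {P Q : Polynomial ℂ} {PA : Set (OnePoint ℂ)} {c : ℂ} {s : ℝ}

variable {A : Set ℂ}

/-- the base disc has majorants -/
theorem mj_base (h : PSys d P Q PA c s) (hA : Nice P Q c s A) : Mj P Q c s A := by
  have hs := h.s0
  refine ⟨?_, ?_⟩
  · obtain ⟨C, hC, hmaj⟩ := ee_maj h hA
    refine ⟨C, hC, fun F M hF hF0 hM hcmp => hmaj F M hF hF0 hM fun p hp x hx z hz => ?_⟩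
    exact hcmp p hp x hx z (ball_subset_ball (by linarith) (hA.As hz))
  · obtain ⟨u, hu⟩ := r1_sys h hA
    refine ⟨u, hu.su, fun p w hw => hu.dv p w ?_⟩
    rw [show 2 * (3 * s) = 6 * s by ring]
    exact hw

/-- the kernel is bounded near the centre -/
theorem ka_far (h : PS0 d P Q PA c s) {z : ℂ} (hz : z ∉ ball c (8 * s)) :
    ∃ M, Pool.H50.ST.Bd c (6 * s) M (KA z) := by
  have hs := h.s0
  have hK := one_le_KK
  have hr : 100 * s ≤ rho s := by
    rw [rho]
    nlinarith
  have h0 : rho s ≤ ‖(0 : ℂ) - c‖ := by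
    by_contra hcon
    exact h.off 0 (by rw [mem_ball, dist_eq_norm]; exact not_le.1 hcon) h.z0
  have h1 : rho s ≤ ‖(1 : ℂ) - c‖ := by
    by_contra hcon
    exact h.off 1 (by rw [mem_ball, dist_eq_norm]; exact not_le.1 hcon) h.z1
  have h2 : 8 * s ≤ ‖z - c‖ := by
    by_contra hcon
    exact hz (by rw [mem_ball, dist_eq_norm]; exact not_le.1 hcon)
  have key : ∀ b : ℂ, 8 * s ≤ ‖b - c‖ → ∀ w ∈ ball c (6 * s), s ≤ ‖w - b‖ := by
    intro b hb w hw
    rw [mem_ball, dist_eq_norm] at hw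
    have e : b - c = (w - c) - (w - b) := by ring
    have h3 := norm_sub_le (w - c) (w - b)
    rw [← e] at h3
    linarith
  have hden : ∀ w ∈ ball c (6 * s), s * s * s ≤ ‖w * (w - 1) * (w - z)‖ := by
    intro w hw
    have h3 := key 0 (by linarith) w hw
    have h4 := key 1 (by linarith) w hw
    have h5 := key z h2 w hw
    rw [sub_zero] at h3
    rw [norm_mul, norm_mul]
    gcongr
  refine ⟨‖z * (z - 1)‖ / (s * s * s), ?_, ?_⟩
  · intro w hw
    have h3 := hden w hw
    have h4 : w * (w - 1) * (w - z) ≠ 0 := by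
      rw [← norm_pos_iff]
      exact lt_of_lt_of_le (by positivity) h3
    have h5 : DifferentiableAt ℂ (fun w : ℂ => z * (z - 1) / (w * (w - 1) * (w - z))) w := by
      refine DifferentiableAt.div (by fun_prop) (by fun_prop) h4
    exact h5.differentiableWithinAt
  · intro w hw
    rw [KA, norm_div]
    gcongr
    exact hden w hw

theorem lam_far {z : ℂ} (hz : z ∈ LAM P Q c s) : z ∉ ball c (8 * s) := fun he => hz 0 z he rfl

theorem bk_base (h : PSys d P Q PA c s) (hA : Nice P Q c s A) {z : ℂ} (hz : z ∈ LAM P Q c s) :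
    BK P Q c s A z := by
  have hs := h.s0
  obtain ⟨u, hu⟩ := r1_sys h hA
  obtain ⟨M, hM⟩ := ka_far (PS0.of h) (lam_far hz)
  refine ⟨M, fun p hp x hx => hM.2 _ ?_⟩
  refine ball_subset_ball ?_ (hu.mp ⟨p, hp⟩ x (by rw [show 2 * (3 * s) = 6 * s by ring]; exact hx))
  linarith

end Pool.Agent.H42.PB
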