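import Pool.Agent.H42.PP.Defs
import Pool.Agent.H91.Fatou.Branch

/-!
# THEOREM P, unified version: base lemmas on the branches

`br_spec` and its parts, `uni` (uniqueness of branches on preconnected sets), `fibre` (every preimage of a point of the
large ball is a value of a branch), `same`, `pre` (prefix of a branch), `comp` (composition of branches).
-/

set_option autoImplicit false

open Filter Topology Polynomial OnePoint Metric Set MeasureTheory

namespace Pool.Agent.H42.PP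

open Pool.Agent.H44.Fatou Pool.Agent.H32.BT Pool.Agent.H80.AJ Pool.Agent.H35.EX Pool.Agent.H61.TT
open Pool.Agent.H1.PU

variable {d : ℕ} {P Q : Polynomial ℂ} {PA : Set (OnePoint ℂ)} {c : ℂ} {s : ℝ}

/-- the distortion constant is at least `81` (the Koebe function `z / (1 - z) ^ 2`) -/
theorem KK_ge : 81 ≤ KK := by
  set g : ℂ → ℂ := fun z => z / (1 - z) ^ 2 with hg
  have hne : ∀ z ∈ ball (0 : ℂ) 1, (1 : ℂ) - z ≠ 0 := by
    intro z hz h0
    have h1 : z = 1 := by linear_combination -h0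
    rw [mem_ball, dist_zero_right, h1, norm_one] at hz
    exact lt_irrefl _ hz
  have hd : ∀ z ∈ ball (0 : ℂ) 1,
      HasDerivAt g ((1 * (1 - z) ^ 2 - z * (2 * (1 - z) ^ 1 * (-1))) / ((1 - z) ^ 2) ^ 2) z := by
    intro z hz
    have h1 : HasDerivAt (fun z : ℂ => 1 - z) (-1) z := by
      simpa using (hasDerivAt_id z).const_sub 1
    have h2 : HasDerivAt (fun z : ℂ => (1 - z) ^ 2) (2 * (1 - z) ^ 1 * (-1)) z := by
      simpa using h1.fun_pow 2
    exact (hasDerivAt_id z).div h2 (pow_ne_zero 2 (hne z hz))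
  have hdiff : DifferentiableOn ℂ g (ball 0 1) := fun z hz =>
    (hd z hz).differentiableAt.differentiableWithinAt
  have hinj : InjOn g (ball 0 1) := by
    intro z hz w hw hzw
    simp only [hg] at hzw
    rw [div_eq_div_iff (pow_ne_zero 2 (hne z hz)) (pow_ne_zero 2 (hne w hw))] at hzw
    have h1 : (z - w) * (1 - z * w) = 0 := by linear_combination hzw
    rcases mul_eq_zero.1 h1 with h2 | h2
    · exact sub_eq_zero.1 h2
    · exfalso
      have h3 : ‖z * w‖ = 1 := by
        have : z * w = 1 := by linear_combination -h2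
        rw [this, norm_one]
      rw [norm_mul] at h3
      rw [mem_ball, dist_zero_right] at hz hw
      have h4 : ‖z‖ * ‖w‖ < 1 := by
        nlinarith [norm_nonneg z, norm_nonneg w]
      linarith
  have h1 := distort one_pos hdiff hinj (w := 1 / 2) (w' := -(1 / 2)) (by
    rw [mem_closedBall, dist_zero_right]; norm_num) (by
    rw [mem_closedBall, dist_zero_right]; norm_num)
  rw [(hd (1 / 2) (by rw [mem_ball, dist_zero_right]; norm_num)).deriv,
    (hd (-(1 / 2)) (by rw [mem_ball, dist_zero_right]; norm_num)).deriv] at h1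
  norm_num at h1
  linarith

theorem rho_ge (hs : 0 < s) : 10000000 * s ≤ rho s := by
  unfold rho
  have h1 := KK_ge
  nlinarith

theorem rho_pos (hs : 0 < s) : 0 < rho s := lt_of_lt_of_le (by positivity) (rho_ge hs)

/-- the branch of index `p` is an inverse branch -/
theorem br_spec (h : PS0 d P Q PA c s) {p : ℕ × ℂ} (hp : p ∈ IX P Q c) :
    Br (rat P Q) p.1 c (rho s) p.2 (br P Q c s p) := by
  have h1 : ∃ G, Br (rat P Q) p.1 c (rho s) p.2 G := h.sys.br (rho_pos h.s0) h.off hp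
  unfold br
  rw [dif_pos h1]
  exact h1.choose_spec

theorem br_c (h : PS0 d P Q PA c s) {p : ℕ × ℂ} (hp : p ∈ IX P Q c) : br P Q c s p c = p.2 :=
  (br_spec h hp).val

theorem br_diff (h : PS0 d P Q PA c s) {p : ℕ × ℂ} (hp : p ∈ IX P Q c) :
    DifferentiableOn ℂ (br P Q c s p) (ball c (rho s)) := (br_spec h hp).diff

theorem br_inv (h : PS0 d P Q PA c s) {p : ℕ × ℂ} (hp : p ∈ IX P Q c) {u : ℂ}
    (hu : u ∈ ball c (rho s)) : (rat P Q)^[p.1] (br P Q c s p u : OnePoint ℂ) = (u : OnePoint ℂ) :=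
  (br_spec h hp).inv u hu

theorem br_inj (h : PS0 d P Q PA c s) {p : ℕ × ℂ} (hp : p ∈ IX P Q c) :
    InjOn (br P Q c s p) (ball c (rho s)) := (br_spec h hp).inj

theorem br_off (h : PS0 d P Q PA c s) {p : ℕ × ℂ} (hp : p ∈ IX P Q c) {u : ℂ}
    (hu : u ∈ ball c (rho s)) : (br P Q c s p u : OnePoint ℂ) ∉ PA :=
  h.sys.br_off h.off (br_spec h hp) hu

theorem c_mem (h : PS0 d P Q PA c s) : c ∈ ball c (rho s) := mem_ball_self (rho_pos h.s0)

/-- the image of an open set under an injective holomorphic function is open -/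
theorem open_image {G : ℂ → ℂ} {x : ℂ} {R : ℝ} (hG : DifferentiableOn ℂ G (ball x R))
    (hi : InjOn G (ball x R)) {T : Set ℂ} (hT : IsOpen T) (hTs : T ⊆ ball x R) :
    IsOpen (G '' T) := by
  rcases (hG.analyticOnNhd isOpen_ball).is_constant_or_isOpen (convex_ball x R).isPreconnected with
    ⟨w, hw⟩ | h1
  · rcases T.eq_empty_or_nonempty with rfl | ⟨t, ht⟩
    · rw [image_empty]; exact isOpen_empty
    · exfalso
      obtain ⟨ε, hε, hb⟩ := Metric.isOpen_iff.1 hT t ht
      have h2 : t + ((ε / 2 : ℝ) : ℂ) ∈ ball t ε := by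
        rw [mem_ball, dist_eq_norm, add_sub_cancel_left, Complex.norm_real, Real.norm_eq_abs,
          abs_of_pos (by positivity)]
        linarith
      have h3 := hi (hTs (hb h2)) (hTs ht) (by rw [hw _ (hTs (hb h2)), hw _ (hTs ht)])
      have h4 : ((ε / 2 : ℝ) : ℂ) = 0 := by linear_combination h3
      have h5 : ε / 2 = 0 := by exact_mod_cast h4
      linarith
  · exact h1 T hTs hT

theorem Br.open_image {f : OnePoint ℂ → OnePoint ℂ} {n : ℕ} {x : ℂ} {R : ℝ} {z : ℂ} {G : ℂ → ℂ}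
    (hG : Br f n x R z G) {T : Set ℂ} (hT : IsOpen T) (hTs : T ⊆ ball x R) : IsOpen (G '' T) :=
  PP.open_image hG.diff hG.inj hT hTs

/-- uniqueness of branches on preconnected sets -/
theorem uni {f : OnePoint ℂ → OnePoint ℂ} {m : ℕ} {x : ℂ} {R : ℝ} {z : ℂ} {G : ℂ → ℂ}
    (hG : Br f m x R z G) {X : Type*} [TopologicalSpace X] [PreconnectedSpace X] {φ : X → ℂ}
    (hφ : Continuous φ) (hφB : ∀ t, φ t ∈ ball x R) {g : X → OnePoint ℂ}
    (hg : Continuous g) (hf : ∀ t, f^[m] (g t) = (φ t : OnePoint ℂ)) {t0 : X}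
    (h0 : g t0 = (G (φ t0) : OnePoint ℂ)) : ∀ t, g t = (G (φ t) : OnePoint ℂ) := by
  have hcl : IsClosed {t : X | g t = (G (φ t) : OnePoint ℂ)} := by
    refine isClosed_eq hg (continuous_coe.comp ?_)
    exact hG.diff.continuousOn.comp_continuous hφ hφB
  have hop : IsOpen {t : X | g t = (G (φ t) : OnePoint ℂ)} := by
    have h1 : {t : X | g t = (G (φ t) : OnePoint ℂ)} =
        g ⁻¹' (((↑) : ℂ → OnePoint ℂ) '' (G '' ball x R)) := by
      ext t
      constructor
      · intro ht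
        exact ⟨G (φ t), ⟨φ t, hφB t, rfl⟩, ht.symm⟩
      · rintro ⟨_, ⟨u, hu, rfl⟩, hu2⟩
        have h2 := hf t
        rw [← hu2, hG.inv u hu] at h2
        have h3 := OnePoint.coe_injective h2
        show g t = _
        rw [← hu2, h3]
    rw [h1]
    exact (OnePoint.isOpenEmbedding_coe.isOpenMap _
      (Br.open_image hG isOpen_ball subset_rfl)).preimage hg
  have h2 := IsClopen.eq_univ ⟨hcl, hop⟩ ⟨t0, h0⟩
  intro t
  have h3 : t ∈ {t : X | g t = (G (φ t) : OnePoint ℂ)} := by rw [h2]; trivial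
  exact h3

/-- uniqueness of branches on preconnected subsets of the ball -/
theorem uni_on {f : OnePoint ℂ → OnePoint ℂ} {m : ℕ} {x : ℂ} {R : ℝ} {z : ℂ} {G : ℂ → ℂ}
    (hG : Br f m x R z G) {S : Set ℂ} (hS : IsPreconnected S) (hSB : S ⊆ ball x R)
    {g : ℂ → OnePoint ℂ} (hg : ContinuousOn g S) (hf : ∀ u ∈ S, f^[m] (g u) = (u : OnePoint ℂ))
    {u0 : ℂ} (hu0 : u0 ∈ S) (h0 : g u0 = (G u0 : OnePoint ℂ)) :
    ∀ u ∈ S, g u = (G u : OnePoint ℂ) := by
  have : PreconnectedSpace S := isPreconnected_iff_preconnectedSpace.1 hS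
  have h1 := uni hG (X := S) (φ := Subtype.val) continuous_subtype_val (fun t => hSB t.2)
    (g := S.domRestrict g) (continuousOn_iff_continuous_domRestrict.1 hg)
    (fun t => hf t t.2) (t0 := ⟨u0, hu0⟩) h0
  intro u hu
  exact h1 ⟨u, hu⟩

theorem rat_cont (h : PS0 d P Q PA c s) : Continuous (rat P Q) := rat_continuous h.sys.cop

theorem iter_open (h : PS0 d P Q PA c s) (n : ℕ) : IsOpenMap ((rat P Q)^[n]) := by
  induction n with
  | zero => exact IsOpenMap.id
  | succ n ih =>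
    rw [Function.iterate_succ]
    exact ih.comp (rat_open h.sys.cop h.sys.deg)

/-- preimages of points of the large ball are not in `PA` -/
theorem pre_off (h : PS0 d P Q PA c s) {u : ℂ} (hu : u ∈ ball c (rho s)) {m : ℕ}
    {z : OnePoint ℂ} (hz : (rat P Q)^[m] z = (u : OnePoint ℂ)) : z ∉ PA := by
  intro hA
  apply h.off u hu
  rw [← hz]
  exact iter_mem h.sys.inv hA m

theorem pre_fin (h : PS0 d P Q PA c s) {u : ℂ} (hu : u ∈ ball c (rho s)) {m : ℕ}
    {z : OnePoint ℂ} (hz : (rat P Q)^[m] z = (u : OnePoint ℂ)) : ∃ y : ℂ, z = (y : OnePoint ℂ) := by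
  have h1 := pre_off h hu hz
  induction z using OnePoint.rec with
  | infty => exact absurd h.sys.inf h1
  | coe y => exact ⟨y, rfl⟩

/-- every preimage of a point of the large ball is a value of a branch -/
theorem fibre (h : PS0 d P Q PA c s) {u0 : ℂ} (hu0 : u0 ∈ ball c (rho s)) {m : ℕ}
    {z0 : OnePoint ℂ} (hz0 : (rat P Q)^[m] z0 = (u0 : OnePoint ℂ)) :
    ∃ y : ℂ, (m, y) ∈ IX P Q c ∧ z0 = (br P Q c s (m, y) u0 : OnePoint ℂ) := by
  obtain ⟨g, hg1, hg2, hg3⟩ := H91.Fatou.exists_branch (rat_cont h) (rat_open h.sys.cop h.sys.deg)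
    (n := m) (ψ := ((↑) : ℂ → OnePoint ℂ)) continuous_coe (convex_ball c (rho s)) isOpen_ball
    (fun t ht w hw i hi hc => by
      have h1 : rat P Q ((rat P Q)^[i] w) ∈ PA := h.sys.crit _ hc
      rw [← Function.iterate_succ_apply' (rat P Q)] at h1
      apply h.off t ht
      obtain ⟨j, hj⟩ := Nat.exists_eq_add_of_le (Nat.succ_le_of_lt hi)
      rw [← hw, hj, Nat.add_comm, Function.iterate_add_apply]
      exact iter_mem h.sys.inv h1 j) hu0 hz0
  obtain ⟨y, hy⟩ := pre_fin h (c_mem h) (hg3 c (c_mem h))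
  have hyI : (m, y) ∈ IX P Q c := by
    show (rat P Q)^[m] (y : OnePoint ℂ) = _
    rw [← hy]
    exact hg3 c (c_mem h)
  refine ⟨y, hyI, ?_⟩
  rw [← hg2]
  refine uni_on (br_spec h hyI) (convex_ball c (rho s)).isPreconnected subset_rfl hg1 hg3
    (c_mem h) ?_ u0 hu0
  rw [br_c h hyI]
  exact hy

/-- two branches of the same order with a common value at one point are equal -/
theorem same (h : PS0 d P Q PA c s) {p q : ℕ × ℂ} (hp : p ∈ IX P Q c) (hq : q ∈ IX P Q c)
    (hpq : p.1 = q.1) {u : ℂ} (hu : u ∈ ball c (rho s))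
    (he : br P Q c s p u = br P Q c s q u) : p = q := by
  have h1 := uni_on (br_spec h hq) (convex_ball c (rho s)).isPreconnected subset_rfl
    (g := fun v => (br P Q c s p v : OnePoint ℂ))
    (continuous_coe.comp_continuousOn (br_diff h hp).continuousOn)
    (fun v hv => by rw [← hpq]; exact br_inv h hp hv) hu (congrArg _ he) c (c_mem h)
  have h2 := OnePoint.coe_injective h1
  rw [br_c h hp, br_c h hq] at h2
  exact Prod.ext hpq h2

/-- prefixes of branches -/
theorem pre (h : PS0 d P Q PA c s) {p : ℕ × ℂ} (hp : p ∈ IX P Q c) {i : ℕ} (hi : i ≤ p.1) :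
    ∃ y : ℂ, (rat P Q)^[i] (p.2 : OnePoint ℂ) = (y : OnePoint ℂ) ∧ (p.1 - i, y) ∈ IX P Q c ∧
      ∀ u ∈ ball c (rho s), (rat P Q)^[i] (br P Q c s p u : OnePoint ℂ) =
        (br P Q c s (p.1 - i, y) u : OnePoint ℂ) := by
  have h1 : ∀ z : OnePoint ℂ, (rat P Q)^[p.1 - i] ((rat P Q)^[i] z) = (rat P Q)^[p.1] z := by
    intro z
    rw [← Function.iterate_add_apply, Nat.sub_add_cancel hi]
  have h2 : (rat P Q)^[p.1 - i] ((rat P Q)^[i] (p.2 : OnePoint ℂ)) = (c : OnePoint ℂ) := by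
    rw [h1]; exact hp
  obtain ⟨y, hy⟩ := pre_fin h (c_mem h) h2
  have hyI : (p.1 - i, y) ∈ IX P Q c := by
    show (rat P Q)^[p.1 - i] (y : OnePoint ℂ) = _
    rw [← hy]
    exact h2
  refine ⟨y, hy, hyI, ?_⟩
  refine uni_on (br_spec h hyI) (convex_ball c (rho s)).isPreconnected subset_rfl
    (((rat_cont h).iterate i).comp_continuousOn
      (continuous_coe.comp_continuousOn (br_diff h hp).continuousOn)) (fun v hv => ?_)
    (c_mem h) ?_
  · show (rat P Q)^[p.1 - i] ((rat P Q)^[i] _) = _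
    rw [h1]
    exact br_inv h hp hv
  · show (rat P Q)^[i] (br P Q c s p c : OnePoint ℂ) = _
    rw [br_c h hp, br_c h hyI]
    exact hy

/-- composition of branches -/
theorem comp (h : PS0 d P Q PA c s) {p q : ℕ × ℂ} (hp : p ∈ IX P Q c) (hq : q ∈ IX P Q c)
    {S : Set ℂ} (hS : IsPreconnected S) (hSB : S ⊆ ball c (rho s)) {u0 : ℂ} (hu0 : u0 ∈ S)
    (hqS : MapsTo (br P Q c s q) S (ball c (rho s))) :
    ∃ y : ℂ, (p.1 + q.1, y) ∈ IX P Q c ∧
      ∀ u ∈ S, br P Q c s (p.1 + q.1, y) u = br P Q c s p (br P Q c s q u) := by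
  have h1 : ∀ u ∈ S, (rat P Q)^[p.1 + q.1] (br P Q c s p (br P Q c s q u) : OnePoint ℂ) =
      (u : OnePoint ℂ) := by
    intro u hu
    rw [Nat.add_comm, Function.iterate_add_apply, br_inv h hp (hqS hu), br_inv h hq (hSB hu)]
  obtain ⟨y, hyI, hy⟩ := fibre h (hSB hu0) (h1 u0 hu0)
  refine ⟨y, hyI, fun u hu => ?_⟩
  have h2 := uni_on (br_spec h hyI) hS hSB
    (g := fun u => (br P Q c s p (br P Q c s q u) : OnePoint ℂ))
    (continuous_coe.comp_continuousOn ((br_diff h hp).continuousOn.comp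
      ((br_diff h hq).continuousOn.mono hSB) hqS)) h1 hu0 hy u hu
  exact (OnePoint.coe_injective h2).symm

/-- composition of branches, when `c` is in the set -/
theorem comp_c (h : PS0 d P Q PA c s) {p q : ℕ × ℂ} (hp : p ∈ IX P Q c) (hq : q ∈ IX P Q c)
    {S : Set ℂ} (hS : IsPreconnected S) (hSB : S ⊆ ball c (rho s)) (hc : c ∈ S)
    (hqS : MapsTo (br P Q c s q) S (ball c (rho s))) :
    (p.1 + q.1, br P Q c s p q.2) ∈ IX P Q c ∧
      ∀ u ∈ S, br P Q c s (p.1 + q.1, br P Q c s p q.2) u = br P Q c s p (br P Q c s q u) := by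
  obtain ⟨y, hyI, hy⟩ := comp h hp hq hS hSB hc hqS
  have h1 := hy c hc
  rw [br_c h hyI, br_c h hq] at h1
  rw [← h1]
  exact ⟨hyI, hy⟩

end Pool.Agent.H42.PP
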