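import Pool.Agent.H42.PP.BraA

/-!
# Module BraB: images and compositions of branches

All from module `Bas`.
-/

set_option autoImplicit false

open Filter Topology Polynomial OnePoint Metric Set MeasureTheory

namespace Pool.Agent.H42.PP

open Pool.Agent.H44.Fatou Pool.Agent.H32.BT Pool.Agent.H80.AJ Pool.Agent.H35.EX Pool.Agent.H61.TT
open Pool.Agent.H1.PU

variable {d : ℕ} {P Q : Polynomial ℂ} {PA : Set (OnePoint ℂ)} {c : ℂ} {s : ℝ}

theorem br_it (h : PS0 d P Q PA c s) {p : ℕ × ℂ} (hp : p ∈ IX P Q c) {i : ℕ} (hi : i ≤ p.1) :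
    ∃ y : ℂ, (rat P Q)^[i] (p.2 : OnePoint ℂ) = (y : OnePoint ℂ) ∧ (p.1 - i, y) ∈ IX P Q c ∧
      ∀ u ∈ ball c (rho s), (rat P Q)^[i] (br P Q c s p u : OnePoint ℂ) =
        (br P Q c s (p.1 - i, y) u : OnePoint ℂ) := pre h hp hi

theorem br_comp (h : PS0 d P Q PA c s) {p q : ℕ × ℂ} (hp : p ∈ IX P Q c) (hq : q ∈ IX P Q c) {V : Set ℂ}
    (hV : V ⊆ ball c (rho s)) (hVc : IsPreconnected V) (hc : c ∈ V)
    (hm : MapsTo (br P Q c s q) V (ball c (rho s))) :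
    (q.1 + p.1, br P Q c s p q.2) ∈ IX P Q c ∧
      EqOn (br P Q c s (q.1 + p.1, br P Q c s p q.2)) (fun u => br P Q c s p (br P Q c s q u)) V := by
  have h1 := comp_c h hp hq hVc hV hc hm
  rw [Nat.add_comm p.1 q.1] at h1
  exact h1

end Pool.Agent.H42.PP
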