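import Pool.Agent.H1.PU.Defs

/-!
# THEOREM P+: definitions

Same notation as `H1/PU/Defs` (`IX`, `br`, `EE`, `R1`, `EA`, `g1`, `LAM`, `KA`), now with an ARBITRARY centre `x` which is not in `PA`, and with an arbitrary set `A` of the plane: `EE P Q x A` = the branches at `x` whose centre orbit avoids `A` before it arrives at `x`,
`R1 P Q x A` = the branches which start in `A` and avoid `A` at the times between the start and the arrival at `x` (exits from `A` to `x`).

* `PS0`: the setting without a condition on the centre.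
* `Mj`: majorants for the sums over `EE` and `R1`. `BK z`: the kernel `KA z` is bounded on the images of the branches of `R1`.
* `Win`: a disc `ball x' r' ⊆ ball x r` such that two different branches of `EE ∪ R1` whose orders are equal modulo `N0` have disjoint images of `ball x' r'`.
-/

set_option autoImplicit false

open Filter Topology Polynomial OnePoint Metric Set MeasureTheory

namespace Pool.Agent.H42.PP

open Pool.Agent.H44.Fatou Pool.Agent.H32.BT Pool.Agent.H80.AJ Pool.Agent.H35.EX Pool.Agent.H61.TT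
open Pool.Agent.H1.PU

/-- the setting: `f = P / Q`, `PA` closed, forward invariant, contains critical values and the marks `0`, `1`, `∞`, and does not meet `ball c (rho s)` -/
structure PS0 (d : ℕ) (P Q : Polynomial ℂ) (PA : Set (OnePoint ℂ)) (c : ℂ) (s : ℝ) : Prop where
  sys : Sys0 P Q PA
  rd : RatD d P Q
  z0 : ((0 : ℂ) : OnePoint ℂ) ∈ PA
  z1 : ((1 : ℂ) : OnePoint ℂ) ∈ PA
  s0 : 0 < s
  off : Off PA c (rho s)

theorem PS0.of {d : ℕ} {P Q : Polynomial ℂ} {PA : Set (OnePoint ℂ)} {c : ℂ} {s : ℝ}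
    (h : PSys d P Q PA c s) : PS0 d P Q PA c s := ⟨h.sys, h.rd, h.z0, h.z1, h.s0, h.off⟩

/-- majorants for the sums over `EE` and `R1` -/
structure Mj (P Q : Polynomial ℂ) (c : ℂ) (s : ℝ) (A : Set ℂ) : Prop where
  ee : ∃ C : ℝ, 0 ≤ C ∧ ∀ (F : ℂ → ℝ) (M : ℝ), Integrable F → (∀ y, 0 ≤ F y) → 0 ≤ M →
      (∀ p ∈ EE P Q c A, ∀ x ∈ ball c (6 * s), ∀ z ∈ ball c (6 * s),
        F (br P Q c s p x) ≤ M * F (br P Q c s p z)) →
      ∃ u : EE P Q c A → ℝ, Summable u ∧ ∑' p, u p ≤ C * M * ∫ y, F y ∧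
        ∀ (p : EE P Q c A), ∀ x ∈ ball c (6 * s),
          ‖deriv (br P Q c s p.1) x‖ ^ 2 * F (br P Q c s p.1 x) ≤ u p
  r1 : ∃ u : R1 P Q c A → ℝ, Summable u ∧ ∀ (p : R1 P Q c A), ∀ w ∈ ball c (6 * s),
    ‖deriv (br P Q c s p.1) w‖ ^ 2 ≤ u p

/-- the kernel is bounded on the images of the branches of `R1` -/
def BK (P Q : Polynomial ℂ) (c : ℂ) (s : ℝ) (A : Set ℂ) (z : ℂ) : Prop :=
  ∃ B : ℝ, ∀ p ∈ R1 P Q c A, ∀ x ∈ ball c (6 * s), ‖KA z (br P Q c s p x)‖ ≤ B

/-- a disc in `ball c s` whose images under the branches of `S` with orders equal modulo `N0` are pairwise disjoint -/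
structure Win (P Q : Polynomial ℂ) (c : ℂ) (s : ℝ) (S : Set (ℕ × ℂ)) (x' : ℂ) (r' : ℝ) (N0 : ℕ) : Prop where
  r0 : 0 < r'
  sub : ball x' r' ⊆ ball c s
  n0 : 0 < N0
  dis : ∀ p ∈ S, ∀ q ∈ S, p ≠ q → p.1 % N0 = q.1 % N0 →
    Disjoint (br P Q c s p '' ball x' r') (br P Q c s q '' ball x' r')

end Pool.Agent.H42.PP
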