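import Pool.Agent.H42.PP.FlcB

/-!
# THEOREM P+, module FldB: the flat case is impossible for a non critical centre
-/

set_option autoImplicit false

open Filter Topology Polynomial OnePoint Metric Set MeasureTheory

namespace Pool.Agent.H42.PB

open Pool.Agent.H44.Fatou Pool.Agent.H32.BT Pool.Agent.H80.AJ Pool.Agent.H35.EX Pool.Agent.H61.TT
open Pool.Agent.H1.PU

variable {d : ℕ} {P Q : Polynomial ℂ} {PA : Set (OnePoint ℂ)} {c : ℂ} {s : ℝ}

variable {A : Set ℂ} {φ : ℂ → ℂ}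

theorem j_it {c1 : ℂ} {J : Set (OnePoint ℂ)} (hJ : JP P Q c1 J) (j : ℕ) (z : OnePoint ℂ) :
    (rat P Q)^[j] z ∈ J ↔ z ∈ J := by
  induction j generalizing z with
  | zero => exact Iff.rfl
  | succ j ih =>
    rw [Function.iterate_succ_apply, ih]
    exact (hJ.inv z).symm

theorem fldb (h : PSys d P Q PA c s) {c1 : ℂ} (hc : Crt P Q c1) {J : Set (OnePoint ℂ)}
    (hJ : JP P Q c J) (hc1J : (c1 : OnePoint ℂ) ∈ J) :
    ∃ (n k : ℕ) (w pt : ℂ), 1 ≤ n ∧ w ∈ ball c s ∧ (rat P Q)^[n] (c1 : OnePoint ℂ) = (pt : OnePoint ℂ) ∧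
      (rat P Q)^[k] (w : OnePoint ℂ) = (pt : OnePoint ℂ) ∧
      ∀ i < k, ∃ z : ℂ, (rat P Q)^[i] (w : OnePoint ℂ) = (z : OnePoint ℂ) ∧ (ww P Q).eval z ≠ 0 := by
  have hfin : ∀ n : ℕ, ∃ z : ℂ, (rat P Q)^[n] (c1 : OnePoint ℂ) = (z : OnePoint ℂ) := by
    intro n
    obtain ⟨z, hz⟩ := OnePoint.ne_infty_iff_exists.1 (hc.ninf n 0)
    exact ⟨z, hz.symm⟩
  choose v hv using hfin
  have hstep : ∀ n, rat P Q (v n : OnePoint ℂ) = (v (n + 1) : OnePoint ℂ) := by
    intro n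
    rw [← hv n, ← hv (n + 1), Function.iterate_succ_apply']
  have hvi : Function.Injective v := by
    intro m n hmn
    by_contra hne
    rcases lt_or_gt_of_ne hne with h1 | h1
    · exact hc.inf m n h1 (by rw [hv, hv, hmn])
    · exact hc.inf n m h1 (by rw [hv, hv, hmn])
  obtain ⟨n, w, hw, hwc⟩ := fld_pre h.rd hstep hvi
  have hvJ : ∀ n, (v n : OnePoint ℂ) ∈ J := by
    intro n
    rw [← hv n]
    exact (j_it hJ n _).2 hc1J
  have hwJ : (w : OnePoint ℂ) ∈ J := by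
    rw [hJ.inv, hw]
    exact hvJ _
  obtain ⟨m, u, hu, hm⟩ := hJ.tr c hJ.cJ _ hwJ s h.s0
  have hm1 : (rat P Q)^[m + 1] (u : OnePoint ℂ) = (v (n + 1) : OnePoint ℂ) := by
    rw [Function.iterate_succ_apply', hm, hw]
  refine ⟨n + 1, m + 1, u, v (n + 1), by omega, hu, hv _, hm1, fun i hi => ?_⟩
  obtain ⟨z, hz⟩ := OnePoint.ne_infty_iff_exists.1 (show (rat P Q)^[i] (u : OnePoint ℂ) ≠ ∞ by
    intro h0
    have e : m + 1 = (m + 1 - i) + i := by omega
    rw [e, Function.iterate_add_apply, h0, ← hv] at hm1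
    exact hc.ninf _ _ hm1.symm)
  refine ⟨z, hz.symm, fun h0 => ?_⟩
  refine hwc z h0 (m - i) ?_
  rw [hz, ← Function.iterate_add_apply, Nat.sub_add_cancel (by omega)]
  exact hm

/-- the flat case is impossible: `c` is any base point with `f c ∈ PA`, `c1` a critical point in `J` with infinite orbit -/
theorem flatb (h : PSys d P Q PA c s) (hA : Nice P Q c s A) (hf : Flt P Q c s A φ) {c1 : ℂ}
    (hc : Crt P Q c1) {J : Set (OnePoint ℂ)} (hJ : JP P Q c J) (hc1J : (c1 : OnePoint ℂ) ∈ J) :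
    False := by
  have hs := h.s0
  obtain ⟨n, k, w, pt, hn, hw, h1, h2, h3⟩ := fldb h hc hJ hc1J
  have hφc : φ c ≠ 0 := fix_c h hA hf
  have hcA : c ∈ A := hA.bA (mem_ball_self hs)
  obtain ⟨⟨M, hφd, -⟩, -, -⟩ := id hf
  have hcont : ContinuousAt φ c :=
    hφd.continuousOn.continuousAt (isOpen_ball.mem_nhds (mem_ball_self (by linarith)))
  obtain ⟨ε, hε, hball⟩ := Metric.eventually_nhds_iff_ball.1
    ((hcont.eventually_ne hφc).and (hA.Ao.mem_nhds hcA))
  obtain ⟨m, y, hy, hm⟩ := hJ.tr c hJ.cJ _ hc1J ε hε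
  refine flcb h hA hf hJ (hball y hy).2 ((j_it hJ m _).1 (by rw [hm]; exact hc1J)) (hball y hy).1 ?_
    (n := n + m) (k := k) ⟨m, by omega, c1, hm, hc.w⟩ (hA.bA hw) ?_ h2 h3
  · intro i h0
    rcases Nat.lt_or_ge m i with hi | hi
    · apply hc.ninf (i - m) 0
      rw [← hm, ← Function.iterate_add_apply, Nat.sub_add_cancel hi.le]
      exact h0
    · apply hc.ninf 0 (m - i)
      have e : m = (m - i) + i := by omega
      rw [e, Function.iterate_add_apply, h0] at hm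
      exact hm.symm
  · rw [Function.iterate_add_apply, hm]
    exact h1

end Pool.Agent.H42.PB
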