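import Pool.Agent.H1.PU.Nic
import Pool.Agent.H1.PU.Fla

/-!
# THEOREM P+, base disc with a non critical centre: the nice set (H1/PU/Nic with `fc` in place of the critical point) and `φ c ≠ 0` (H1/PU/Fla)
-/

set_option autoImplicit false

open Filter Topology Polynomial OnePoint Metric Set MeasureTheory

namespace Pool.Agent.H42.PB

open Pool.Agent.H44.Fatou Pool.Agent.H32.BT Pool.Agent.H80.AJ Pool.Agent.H35.EX Pool.Agent.H61.TT
open Pool.Agent.H1.PU

variable {d : ℕ} {P Q : Polynomial ℂ} {PA : Set (OnePoint ℂ)} {c : ℂ} {s : ℝ}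

/-- the orbit of `c` after time zero does not visit the large ball -/
theorem orb_c (h : PSys d P Q PA c s) {n : ℕ} (hn : 1 ≤ n) {u : ℂ}
    (hu : u ∈ ball c (rho s)) : (rat P Q)^[n] (c : OnePoint ℂ) ≠ (u : OnePoint ℂ) := by
  intro he
  apply h.off u hu
  obtain ⟨m, rfl⟩ := Nat.exists_eq_add_of_le hn
  rw [← he, Nat.add_comm, Function.iterate_add_apply]
  exact iter_mem h.sys.inv h.fc m

/-- branches of positive order omit `c` -/
theorem omit_c (h : PSys d P Q PA c s) {p : ℕ × ℂ}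
    (hp : p ∈ IX P Q c) (hp1 : 1 ≤ p.1) : c ∉ br P Q c s p '' ball c (rho s) := by
  rintro ⟨u, hu, he⟩
  have h1 := br_inv h hp hu
  rw [he] at h1
  exact orb_c h hp1 hu h1

/-- small returns -/
theorem small (h : PSys d P Q PA c s) {p : ℕ × ℂ}
    (hp : p ∈ IX P Q c) (hp1 : 1 ≤ p.1) {t : ℝ} (ht0 : 0 < t) (hts : t ≤ 33 * s) {w₀ : ℂ}
    (hw₀ : w₀ ∈ ball c (2 * t)) (hgw : br P Q c s p w₀ ∈ ball c (2 * t)) :
    ∀ w ∈ ball c (2 * t), ‖br P Q c s p w - br P Q c s p w₀‖ ≤ t / 20 := by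
  refine Pool.H50.ST.small_ret ht0 ?_ (br_diff h hp) (br_inj h hp) (omit_c h hp hp1) hw₀ hgw
  have h1 := rho_ge h.s0
  linarith

/-- a connected subset of `VV n` which contains `c` is small -/
theorem claim (h : PSys d P Q PA c s) (n : ℕ) :
    ∀ X : Set ℂ, IsPreconnected X → c ∈ X → X ⊆ VV P Q c s n → X ⊆ ball c (11 / 10 * s) := by
  have hs := h.s0
  have hrho := rho_ge hs
  induction n using Nat.strong_induction_on with
  | _ n ih =>
  intro X hX hcX hXV z0 hz0
  by_contra hz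
  rw [mem_ball, dist_eq_norm, not_lt] at hz
  have hcV : c ∈ VV P Q c s n := hXV hcX
  -- a path from `c` to `z0` in `VV n`
  set A : Set ℂ := connectedComponentIn (VV P Q c s n) c with hA
  have hAo : IsOpen A := (open_VV h n).connectedComponentIn
  have hAc : IsConnected A := isConnected_connectedComponentIn_iff.2 hcV
  have hXA : X ⊆ A := hX.subset_connectedComponentIn hcX hXV
  obtain ⟨γ, hγ⟩ := (hAo.isConnected_iff_isPathConnected.1 hAc).joinedIn c (hXA hcX) z0 (hXA hz0)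
  obtain ⟨S, hS, hSr, h1S, hSout, x1, hx1S, hx1⟩ := cut γ.continuous hs γ.source (by
    rw [γ.target]; linarith)
  rw [γ.target] at h1S
  have hSV : S ⊆ VV P Q c s n := by
    intro x hx
    obtain ⟨t, rfl⟩ := hSr hx
    exact connectedComponentIn_subset _ _ (hγ t)
  have hS0 : ∀ x ∈ S, x ∉ ball c s := by
    intro x hx hxb
    rw [mem_ball, dist_eq_norm] at hxb
    exact absurd (hSout x hx) (not_le.2 hxb)
  -- the first time `m ≥ 1` at which the image of `S` meets `ball c s`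
  have hex : ∃ m : ℕ, 1 ≤ m ∧ ∃ x ∈ S, ∃ u ∈ ball c s,
      (rat P Q)^[m] (x : OnePoint ℂ) = (u : OnePoint ℂ) := by
    obtain ⟨k, hk, u, hu, hku⟩ := hSV hx1S
    refine ⟨k, ?_, x1, hx1S, u, hu, hku⟩
    rcases Nat.eq_zero_or_pos k with rfl | hk0
    · exfalso
      have h1 : x1 = u := OnePoint.coe_injective hku
      rw [← h1] at hu
      exact hS0 x1 hx1S hu
    · exact hk0
  classical
  set m := Nat.find hex with hm
  obtain ⟨hm1, xm, hxm, um, hum, hmu⟩ := Nat.find_spec hex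
  rw [← hm] at hm1 hmu
  have hkey : ∀ x ∈ S, ∃ k, m ≤ k ∧ k ≤ n ∧ ∃ u ∈ ball c s,
      (rat P Q)^[k] (x : OnePoint ℂ) = (u : OnePoint ℂ) := by
    intro x hx
    obtain ⟨k, hk, u, hu, hku⟩ := hSV hx
    refine ⟨k, ?_, hk, u, hu, hku⟩
    refine Nat.find_min' hex ⟨?_, x, hx, u, hu, hku⟩
    rcases Nat.eq_zero_or_pos k with rfl | hk0
    · exfalso
      have h1 : x = u := OnePoint.coe_injective hku
      rw [← h1] at hu
      exact hS0 x hx hu
    · exact hk0
  have hsub : ball c s ⊆ ball c (rho s) := ball_subset_ball (by linarith)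
  -- the image is in `VV (n - m)`
  have hfin : ∀ x ∈ S, ∃ v ∈ VV P Q c s (n - m),
      (rat P Q)^[m] (x : OnePoint ℂ) = (v : OnePoint ℂ) := by
    intro x hx
    obtain ⟨k, hmk, hkn, u, hu, hku⟩ := hkey x hx
    have h1 : (rat P Q)^[k - m] ((rat P Q)^[m] (x : OnePoint ℂ)) = (u : OnePoint ℂ) := by
      rw [← Function.iterate_add_apply, Nat.sub_add_cancel hmk]
      exact hku
    obtain ⟨v, hv⟩ := pre_fin h (hsub hu) h1
    refine ⟨v, ⟨k - m, by omega, u, hu, ?_⟩, hv⟩
    rw [← hv]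
    exact h1
  have hmn : m ≤ n := by
    obtain ⟨k, hmk, hkn, -⟩ := hkey x1 hx1S
    omega
  have hcS : PreconnectedSpace S := isPreconnected_iff_preconnectedSpace.1 hS
  choose! ψ hψ1 hψ2 using hfin
  have hψc : ContinuousOn ψ S := by
    rw [continuousOn_iff_continuous_domRestrict]
    rw [OnePoint.isOpenEmbedding_coe.isInducing.continuous_iff]
    have h1 : ((↑) : ℂ → OnePoint ℂ) ∘ (S.domRestrict ψ) =
        fun t : S => (rat P Q)^[m] ((t : ℂ) : OnePoint ℂ) := by
      funext t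
      exact (hψ2 t t.2).symm
    rw [h1]
    exact ((rat_cont h).iterate m).comp (continuous_coe.comp continuous_subtype_val)
  have hYc : IsPreconnected (ψ '' S) := hS.image _ hψc
  have hxmY : ψ xm ∈ ball c s := by
    have h1 := hψ2 xm hxm
    rw [hmu] at h1
    rw [← OnePoint.coe_injective h1]
    exact hum
  have hZ : IsPreconnected (ψ '' S ∪ ball c s) :=
    hYc.union (ψ xm) ⟨xm, hxm, rfl⟩ hxmY (convex_ball c s).isPreconnected
  have hZb := ih (n - m) (by omega) (ψ '' S ∪ ball c s) hZ (Or.inr (mem_ball_self hs)) (by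
    rintro v (⟨x, hx, rfl⟩ | hv)
    · exact hψ1 x hx
    · exact ball_VV _ hv)
  have hS2 : ∀ x ∈ S, ψ x ∈ ball c (11 / 10 * s) := fun x hx => hZb (Or.inl ⟨x, hx, rfl⟩)
  have hsub2 : ball c (11 / 10 * s) ⊆ ball c (rho s) := ball_subset_ball (by linarith)
  obtain ⟨y, φ, hyI, -, hφ⟩ := lift h hS (m := m)
    (fun x hx => ⟨ψ x, hsub2 (hS2 x hx), hψ2 x hx⟩) hx1S
  have hφψ : ∀ x ∈ S, φ x = ψ x := by
    intro x hx
    have h1 := (hφ x hx).1
    rw [hψ2 x hx] at h1
    exact (OnePoint.coe_injective h1).symm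
  have hb2 : ball c (11 / 10 * s) ⊆ ball c (2 * s) := ball_subset_ball (by linarith)
  have hsm := small h hyI (show 1 ≤ m from hm1) hs (by linarith) (w₀ := φ x1) (by
    rw [hφψ x1 hx1S]; exact hb2 (hS2 x1 hx1S)) (by
    rw [← (hφ x1 hx1S).2.2, mem_ball, dist_eq_norm, hx1]
    linarith) (φ z0) (by rw [hφψ z0 h1S]; exact hb2 (hS2 z0 h1S))
  rw [← (hφ x1 hx1S).2.2, ← (hφ z0 h1S).2.2] at hsm
  have h1 : ‖z0 - c‖ ≤ ‖z0 - x1‖ + ‖x1 - c‖ := by
    have : z0 - c = (z0 - x1) + (x1 - c) := by ring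
    rw [this]
    exact norm_add_le _ _
  rw [hx1] at h1
  linarith

/-- the nice set exists -/
theorem nice_NA (h : PSys d P Q PA c s) : Nice P Q c s (NA P Q c s) := by
  have hs := h.s0
  have hrho := rho_ge hs
  have hcU : c ∈ UU P Q c s := ⟨0, c, mem_ball_self hs, rfl⟩
  have hbU : ball c s ⊆ UU P Q c s := fun z hz => ⟨0, z, hz, rfl⟩
  have hAo : IsOpen (NA P Q c s) := (open_UU h).connectedComponentIn
  have hAc : IsConnected (NA P Q c s) := isConnected_connectedComponentIn_iff.2 hcU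
  have hbA : ball c s ⊆ NA P Q c s :=
    (convex_ball c s).isPreconnected.subset_connectedComponentIn (mem_ball_self hs) hbU
  have hAs : NA P Q c s ⊆ ball c (11 / 10 * s) := by
    intro z hz
    obtain ⟨γ, hγ⟩ := (hAo.isConnected_iff_isPathConnected.1 hAc).joinedIn c
      (hbA (mem_ball_self hs)) z hz
    have hK : IsCompact (range γ) := isCompact_range γ.continuous
    obtain ⟨n, hn⟩ := hK.elim_directed_cover (fun n => VV P Q c s n) (fun n => open_VV h n) (by
      rintro _ ⟨t, rfl⟩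
      obtain ⟨k, u, hu, hk⟩ := connectedComponentIn_subset _ _ (hγ t)
      exact mem_iUnion.2 ⟨k, k, le_rfl, u, hu, hk⟩)
      (fun i j => ⟨max i j, VV_mono (le_max_left i j), VV_mono (le_max_right i j)⟩)
    refine claim h n (range γ) ?_ ⟨0, γ.source⟩ hn ⟨1, γ.target⟩
    rw [← image_univ]
    exact isPreconnected_univ.image _ γ.continuous.continuousOn
  refine ⟨hAo, hAc.isPreconnected, hbA, hAs, ?_⟩
  intro p hp u hu hpu
  have hsubB : NA P Q c s ⊆ ball c (rho s) := hAs.trans (ball_subset_ball (by linarith))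
  have h1 : IsPreconnected (br P Q c s p '' NA P Q c s) :=
    hAc.isPreconnected.image _ ((br_diff h hp).continuousOn.mono hsubB)
  have h2 : br P Q c s p '' NA P Q c s ⊆ UU P Q c s := by
    rintro _ ⟨v, hv, rfl⟩
    obtain ⟨k, w, hw, hk⟩ := connectedComponentIn_subset _ _ hv
    refine ⟨k + p.1, w, hw, ?_⟩
    rw [Function.iterate_add_apply, br_inv h hp (hsubB hv)]
    exact hk
  have h3 := h1.subset_connectedComponentIn ⟨u, hu, rfl⟩ h2
  rw [← connectedComponentIn_eq hpu] at h3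
  intro v hv
  exact h3 ⟨v, hv, rfl⟩

variable {A : Set ℂ} {φ : ℂ → ℂ}

/-- there are infinitely many first returns -/
theorem r1_inf (h : PSys d P Q PA c s) (hN : Nice P Q c s A)
    (hφ : Flt P Q c s A φ) : (R1 P Q c A).Infinite := by
  intro hfin
  have hs := h.s0
  have hA6 := sub6 hs hN
  obtain ⟨M, hdf, -⟩ := hφ.1
  have h2B : closedBall c (2 * s) ⊆ ball c (rho s) :=
    closedBall_subset_ball (by have := rho_ge hs; linarith)
  set K : Set ℂ := ⋃ p ∈ R1 P Q c A, br P Q c s p '' closedBall c (2 * s) with hK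
  have hKc : IsCompact K := hfin.isCompact_biUnion fun p hp =>
    (isCompact_closedBall c (2 * s)).image_of_continuousOn ((br_diff h hp.1).continuousOn.mono h2B)
  have hcK : c ∉ K := by
    intro hcK
    obtain ⟨p, hp, hpc⟩ := mem_iUnion₂.1 hcK
    exact omit_c h hp.1 hp.2.1 (image_mono h2B hpc)
  obtain ⟨ε, hε, hb⟩ := Metric.isOpen_iff.1 (hKc.isClosed.isOpen_compl.inter hN.Ao) c
    ⟨hcK, hN.c_mem hs⟩
  have hbA : ball c ε ⊆ A := fun z hz => (hb hz).2
  obtain ⟨z, hz, hne⟩ := fix_neA hs hφ hε (hbA.trans hA6)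
  have ho : IsOpen (ball c ε ∩ φ ⁻¹' {z : ℂ | z ≠ 0}) :=
    (hdf.mono (hbA.trans hA6)).continuousOn.isOpen_inter_preimage isOpen_ball isOpen_ne
  have hpos := ho.measure_pos volume ⟨z, hz, hne⟩
  refine hpos.ne' (measure_mono_null ?_ (ae_iff.1 (fla_ae h hN hφ)))
  rintro u ⟨hu, hune⟩ hcon
  obtain ⟨p, hp, hpu⟩ := hcon (hbA hu) hune
  apply (hb hu).1
  refine mem_iUnion₂.2 ⟨p, hp, ?_⟩
  exact image_mono (hN.As.trans ((ball_subset_ball (by linarith)).trans
    ball_subset_closedBall)) hpu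

/-- the fixed point does not vanish at `c` -/
theorem fix_c (h : PSys d P Q PA c s) (hN : Nice P Q c s A)
    (hφ : Flt P Q c s A φ) : φ c ≠ 0 := by
  intro h0
  have hs := h.s0
  have hA6 := sub6 hs hN
  have hcA := hN.c_mem hs
  obtain ⟨M, hdf, -⟩ := hφ.1
  have hz : ∀ p ∈ R1 P Q c A, φ p.2 = 0 := by
    intro p hp
    obtain ⟨ρ, hρ, hg⟩ := fla1 h hN hφ hp
    have h1 := hg c hcA
    rw [h0, mul_zero, br_c h hp.1, mul_eq_zero] at h1
    rcases h1 with h1 | h1
    · exact absurd ((pow_eq_zero_iff two_ne_zero).1 h1) (br_dne h hp.1 (hA6 hcA))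
    · exact h1
  have hinj : InjOn (fun p : ℕ × ℂ => p.2) (R1 P Q c A) := by
    intro p hp q hq hpq
    by_contra hne
    have h1 := r1_disj h hN hp hq hne
    rw [Set.disjoint_left] at h1
    refine h1 ⟨c, hcA, br_c h hp.1⟩ ⟨c, hcA, ?_⟩
    rw [br_c h hq.1]
    exact hpq.symm
  have hinf : ((fun p : ℕ × ℂ => p.2) '' R1 P Q c A).Infinite := (r1_inf h hN hφ).image hinj
  have hsub : ((fun p : ℕ × ℂ => p.2) '' R1 P Q c A) ⊆ closedBall c (2 * s) := by
    rintro _ ⟨p, hp, rfl⟩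
    exact ball_subset_closedBall (ball_subset_ball (by linarith) (hN.As hp.2.2.1))
  obtain ⟨x, hx, hacc⟩ := hinf.exists_accPt_of_subset_isCompact (isCompact_closedBall c (2 * s)) hsub
  rw [accPt_iff_frequently] at hacc
  have hfr : ∃ᶠ z in 𝓝[≠] x, φ z = 0 := by
    rw [frequently_nhdsWithin_iff]
    refine hacc.mono ?_
    rintro y ⟨hyx, p, hp, rfl⟩
    exact ⟨hz p hp, hyx⟩
  have hx6 : x ∈ ball c (6 * s) := closedBall_subset_ball (by linarith) hx
  have hall := (hdf.analyticOnNhd isOpen_ball).eqOn_zero_of_preconnected_of_frequently_eq_zero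
    (convex_ball c (6 * s)).isPreconnected hx6 hfr
  obtain ⟨w, hw, hne⟩ := hφ.2.1
  exact hne (hall (ball_subset_ball (by linarith) hw))

end Pool.Agent.H42.PB
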