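import Pool.Agent.H42.PP.Base

/-!
# THEOREM P+, module Res: the function `U = (1 - L)^(-1) EA` on the base disc

`u_main`: `U z` is bounded and holomorphic on `ball c (6 s)` for `z ∈ LAM`, satisfies `f'(z) (U z - KA z) = U (f z) + (polynomial of degree ≤ 2 d in z) / Q(z)^2` on every infinite set of points of `LAM`, and depends continuously on `z ∈ LAM`.
-/

set_option autoImplicit false

open Filter Topology Polynomial OnePoint Metric Set MeasureTheory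

namespace Pool.Agent.H42.PB

open Pool.Agent.H44.Fatou Pool.Agent.H32.BT Pool.Agent.H80.AJ Pool.Agent.H35.EX Pool.Agent.H61.TT
open Pool.Agent.H1.PU
open Pool.Agent.H42.PP (PS0 Mj BK)

variable {d : ℕ} {P Q : Polynomial ℂ} {PA : Set (OnePoint ℂ)} {c : ℂ} {s : ℝ}

variable {A : Set ℂ}

theorem lam_step' {a : ℂ} (ha : a ∈ LAM P Q c s) (hQ : Q.eval a ≠ 0) : gg P Q a ∈ LAM P Q c s := by
  intro n u hu he
  apply ha (n + 1) u hu
  rw [Function.iterate_succ_apply, rat_coe_of_ne hQ]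
  exact he

theorem u_main (h : PSys d P Q PA c s) (hA : Nice P Q c s A) {c1 : ℂ} (hc : Crt P Q c1)
    {J : Set (OnePoint ℂ)} (hJ : JP P Q c J) (hc1J : (c1 : OnePoint ℂ) ∈ J) :
    ∃ U : ℂ → ℂ → ℂ,
      (∀ z ∈ LAM P Q c s, ∃ M, Pool.H50.ST.Bd c (6 * s) M (U z)) ∧
      (∀ S : Set ℂ, S.Infinite → (∀ z ∈ S, z ∈ LAM P Q c s ∧ Q.eval z ≠ 0) →
        ∀ w ∈ ball c (6 * s), ∃ N : Polynomial ℂ, N.natDegree ≤ 2 * d ∧ ∀ z ∈ S,
          dg P Q z * (U z w - KA z w) = U (gg P Q z) w + N.eval z / Q.eval z ^ 2) ∧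
      ∀ v ∈ LAM P Q c s, v ≠ 0 → v ≠ 1 → ∀ ε : ℝ, 0 < ε → ∃ η : ℝ, 0 < η ∧
        ∀ a ∈ LAM P Q c s, ‖a - v‖ < η → ∀ w ∈ ball c (6 * s), ‖U a w - U v w‖ ≤ ε := by
  classical
  have hs := h.s0
  have h3s : 0 < 3 * s := by linarith
  have e6 : 2 * (3 * s) = 6 * s := by ring
  obtain ⟨u, hu⟩ := r1_sys h hA
  have hno : ¬ ∃ (φ : ℂ → ℂ) (M : ℝ), Pool.H50.ST.Bd c (2 * (3 * s)) M φ ∧
      (∃ w ∈ ball c (3 * s), φ w ≠ 0) ∧
        ∀ w ∈ ball c (2 * (3 * s)), φ w = Pool.H50.ST.Lop (g1 P Q c s A) φ w := by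
    rintro ⟨φ, M, hB, hne, hfix⟩
    rw [e6] at hB hfix
    exact flatb h hA ⟨⟨M, hB⟩, hne, hfix⟩ hc hJ hc1J
  rcases Pool.Agent.H42.PP.opr h3s hu with hflat | ⟨C, hC, hres⟩
  · exact absurd hflat hno
  rw [e6] at hres
  have h0 := PS0.of h
  have hM := mj_base h hA
  obtain ⟨C1, hC1, hea⟩ := Pool.Agent.H42.PP.ea_bd h0 hM
  have hex : ∀ z : ℂ, ∃ G : ℂ → ℂ, z ∈ LAM P Q c s → (∃ M, Pool.H50.ST.Bd c (6 * s) M G) ∧
      ∀ w ∈ ball c (6 * s), G w = EA P Q c s A z w + Pool.H50.ST.Lop (g1 P Q c s A) G w := by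
    intro z
    by_cases hz : z ∈ LAM P Q c s
    · have h1 := (hea z hz).1
      obtain ⟨G, hG1, hG2⟩ := hres _ _ ((norm_nonneg _).trans
        (h1.2 c (mem_ball_self (by linarith)))) h1
      exact ⟨G, fun _ => ⟨⟨_, hG1⟩, hG2⟩⟩
    · exact ⟨0, fun hz' => absurd hz' hz⟩
  choose U hU using hex
  have hUB : ∀ z ∈ LAM P Q c s, ∃ M, Pool.H50.ST.Bd c (2 * (3 * s)) M (U z) := by
    intro z hz
    rw [e6]
    exact (hU z hz).1
  have hKB : ∀ z ∈ LAM P Q c s, ∃ M, Pool.H50.ST.Bd c (2 * (3 * s)) M (KA z) := by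
    intro z hz
    rw [e6]
    exact ka_far h0 (lam_far hz)
  refine ⟨U, fun z hz => (hU z hz).1, ?_, ?_⟩
  · intro S hS hSL
    obtain ⟨G, hG⟩ : ∃ G : ℂ → ℂ → ℂ, ∀ z w, G z w = Q.eval z ^ 2 *
        (dg P Q z * (U z w + (-1) * KA z w) + (-1) * U (gg P Q z) w) := ⟨_, fun _ _ => rfl⟩
    obtain ⟨N, hN⟩ : ∃ N : ℂ → ℂ → ℂ, ∀ z w, N z w = Q.eval z ^ 2 *
        (dg P Q z * (EA P Q c s A z w - KA z w + Pool.H50.ST.Lop (g1 P Q c s A) (KA z) w) -
          EA P Q c s A (gg P Q z) w) := ⟨_, fun _ _ => rfl⟩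
    have hGB : ∀ z ∈ S, ∃ M, Pool.H50.ST.Bd c (2 * (3 * s)) M (G z) := by
      intro z hz
      obtain ⟨hzL, hzQ⟩ := hSL z hz
      obtain ⟨M1, h1⟩ := hUB z hzL
      obtain ⟨M2, h2⟩ := hKB z hzL
      obtain ⟨M3, h3⟩ := hUB _ (lam_step' hzL hzQ)
      have e : G z = fun w => Q.eval z ^ 2 *
        (dg P Q z * (U z w + (-1) * KA z w) + (-1) * U (gg P Q z) w) := funext (hG z)
      rw [e]
      exact ⟨_, Pool.H50.ST.bd_mul _ (Pool.H50.ST.bd_add (Pool.H50.ST.bd_mul _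
        (Pool.H50.ST.bd_add h1 (Pool.H50.ST.bd_mul _ h2))) (Pool.H50.ST.bd_mul _ h3))⟩
    have hNp : ∀ w ∈ ball c (2 * (3 * s)), ∃ η : Polynomial ℂ, η.natDegree ≤ 2 * d ∧
        ∀ z ∈ S, N z w = η.eval z := by
      intro w hw
      rw [e6] at hw
      obtain ⟨η, hη1, hη2⟩ := Pool.Agent.H42.PP.idn h0 hM (S := S)
        (fun z hz => ⟨(hSL z hz).1, (hSL z hz).2, bk_base h hA (hSL z hz).1⟩) hS hw
      refine ⟨η, hη1, fun z hz => ?_⟩
      have hb := (hSL z hz).2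
      rw [hN, hη2 z hz]
      field_simp
      ring
    have hGN : ∀ z ∈ S, ∀ w ∈ ball c (2 * (3 * s)),
        G z w = N z w + Pool.H50.ST.Lop (g1 P Q c s A) (G z) w := by
      intro z hz w hw
      obtain ⟨hzL, hzQ⟩ := hSL z hz
      have hw6 : w ∈ ball c (6 * s) := by rwa [e6] at hw
      obtain ⟨M1, h1⟩ := hUB z hzL
      obtain ⟨M2, h2⟩ := hKB z hzL
      obtain ⟨M3, h3⟩ := hUB _ (lam_step' hzL hzQ)
      have e : G z = fun w => Q.eval z ^ 2 *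
        (dg P Q z * (U z w + (-1) * KA z w) + (-1) * U (gg P Q z) w) := funext (hG z)
      have b1 := Pool.H50.ST.bd_mul (-1) h2
      have b2 := Pool.H50.ST.bd_add h1 b1
      have b3 := Pool.H50.ST.bd_mul (dg P Q z) b2
      have b4 := Pool.H50.ST.bd_mul (-1) h3
      have r1 : Pool.H50.ST.Lop (g1 P Q c s A) (G z) w = Q.eval z ^ 2 *
          (dg P Q z * (Pool.H50.ST.Lop (g1 P Q c s A) (U z) w +
            (-1) * Pool.H50.ST.Lop (g1 P Q c s A) (KA z) w) +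
            (-1) * Pool.H50.ST.Lop (g1 P Q c s A) (U (gg P Q z)) w) := by
        rw [e, Pool.Agent.H42.PP.lop_smul, Pool.Agent.H42.PP.lop_add h3s hu b3 b4 hw,
          Pool.Agent.H42.PP.lop_smul, Pool.Agent.H42.PP.lop_add h3s hu h1 b1 hw,
          Pool.Agent.H42.PP.lop_smul, Pool.Agent.H42.PP.lop_smul]
      have e1 := (hU z hzL).2 w hw6
      have e2 := (hU _ (lam_step' hzL hzQ)).2 w hw6
      rw [r1, hG, hN]
      linear_combination (Q.eval z ^ 2 * dg P Q z) * e1 - Q.eval z ^ 2 * e2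
    intro w hw
    obtain ⟨η, hη1, hη2⟩ := Pool.Agent.H42.PP.lop_pol h3s hu hno hS hNp hGB hGN w (by rwa [e6])
    refine ⟨η, hη1, fun z hz => ?_⟩
    have hb := (hSL z hz).2
    rw [← hη2 z hz, hG]
    field_simp
    ring
  · intro v hv hv0 hv1 ε hε
    obtain ⟨η, hη, hcon⟩ := Pool.Agent.H42.PP.ea_cont h0 hM hv hv0 hv1
      (ε := ε / (C + 1)) (by positivity)
    refine ⟨η, hη, fun a ha hav => ?_⟩
    obtain ⟨M1, h1⟩ := hUB a ha
    obtain ⟨M2, h2⟩ := hUB v hv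
    have h1E := (hea a ha).1
    have h2E := (hea v hv).1
    have hdB : Pool.H50.ST.Bd c (6 * s) (ε / (C + 1))
        (fun w => EA P Q c s A a w + (-1) * EA P Q c s A v w) := by
      refine ⟨(Pool.H50.ST.bd_add h1E (Pool.H50.ST.bd_mul (-1) h2E)).1, fun w hw => ?_⟩
      have h5 := hcon a ha hav w hw
      have e : EA P Q c s A a w + (-1) * EA P Q c s A v w =
        EA P Q c s A a w - EA P Q c s A v w := by ring
      show ‖EA P Q c s A a w + (-1) * EA P Q c s A v w‖ ≤ _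
      rw [e]
      exact h5
    obtain ⟨G, hG1, hG2⟩ := hres _ _ (by positivity) hdB
    have hG1' : Pool.H50.ST.Bd c (2 * (3 * s)) (C * (ε / (C + 1))) G := by rw [e6]; exact hG1
    have b1 := Pool.H50.ST.bd_mul (-1) h2
    have b2 := Pool.H50.ST.bd_add h1 b1
    have b3 := Pool.H50.ST.bd_mul (-1) hG1'
    have b4 := Pool.H50.ST.bd_add b2 b3
    have hz := Pool.Agent.H42.PP.opr_uniq h3s hu hno b4 (fun w hw => by
      have hw6 : w ∈ ball c (6 * s) := by rwa [e6] at hw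
      rw [Pool.Agent.H42.PP.lop_add h3s hu b2 b3 hw, Pool.Agent.H42.PP.lop_add h3s hu h1 b1 hw,
        Pool.Agent.H42.PP.lop_smul, Pool.Agent.H42.PP.lop_smul]
      have e1 := (hU a ha).2 w hw6
      have e2 := (hU v hv).2 w hw6
      have e3 := hG2 w hw6
      linear_combination e1 - e2 - e3)
    intro w hw
    have h5 := hz w (by rwa [e6])
    have h6 : U a w - U v w = G w := by linear_combination h5
    rw [h6]
    refine (hG1.2 w hw).trans ?_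
    rw [mul_div_assoc', div_le_iff₀ (by positivity)]
    nlinarith

end Pool.Agent.H42.PB
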