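import Pool.Agent.H42.PP.Maj
import Pool.Agent.H42.PP.BraA

/-!
# THEOREM P+, module Wnd: windows

Base disc: `PS0 d P Q PA c s`, `ball c s ⊆ A ⊆ ball c (11/10 s)`. `tiny`: the branches on a small disc at `x` which have a value in `ball c (2 s)` have images of diameter `≤ s / 4`.
`win_sph`: if small discs at `x` are mapped onto `c` by iterates (`x` in the Julia set), there are a small `r` and a window for `EE ∪ R1` (from `x` to `A`), and the branches of `R1` land in `ball c (3 s)`.
-/

set_option autoImplicit false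

open Filter Topology Polynomial OnePoint Metric Set MeasureTheory

namespace Pool.Agent.H42.PP

open Pool.Agent.H44.Fatou Pool.Agent.H32.BT Pool.Agent.H80.AJ Pool.Agent.H35.EX Pool.Agent.H61.TT
open Pool.Agent.H1.PU

variable {d : ℕ} {P Q : Polynomial ℂ} {PA : Set (OnePoint ℂ)} {c x : ℂ} {s R r : ℝ}

variable {A : Set ℂ}

/-- the branches for a smaller radius -/
theorem br_small (h : PS0 d P Q PA x R) (hr : 0 < r) (hrR : r ≤ R) {p : ℕ × ℂ} (hp : p ∈ IX P Q x) :
    EqOn (br P Q x r p) (br P Q x R p) (ball x (rho r)) := by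
  have h' := h.mono hr hrR
  have hsub : ball x (rho r) ⊆ ball x (rho R) := by
    apply ball_subset_ball
    unfold rho
    have := KK_pos
    gcongr
  have hcx : x ∈ ball x (rho r) := mem_ball_self (rho_pos hr)
  have h1 := br_uniq h' hp (V := ball x (rho r)) subset_rfl (convex_ball _ _).isPreconnected
    (G := br P Q x R p) ((br_diff h hp).continuousOn.mono hsub)
    (fun u hu => br_inv h hp (hsub hu)) hcx (by rw [br_c h hp, br_c h' hp])
  exact h1.symm

/-- the branches on a small disc with a value in `ball c (2 s)` have small images -/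
theorem tiny (h : PS0 d P Q PA x R) (c : ℂ) (hs : 0 < s) : ∃ r0 : ℝ, 0 < r0 ∧ r0 ≤ R ∧
    ∀ r : ℝ, 0 < r → r ≤ r0 → ∀ p ∈ IX P Q x, ∀ u0 ∈ ball x (8 * r),
      br P Q x r p u0 ∈ ball c (2 * s) →
        ∀ u ∈ ball x (8 * r), ‖br P Q x r p u - br P Q x r p u0‖ ≤ s / 4 := by
  have hR := h.s0
  have hK := KK_pos
  have hrho := rho_pos hR
  set B : ℝ := ‖c‖ + 2 * s with hB
  have hB0 : 0 < B := by positivity
  refine ⟨min R (s * rho R / (2048 * KK * B)), lt_min hR (by positivity), min_le_left _ _, ?_⟩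
  intro r hr hr0 p hp u0 hu0 hval u hu
  have hrR : r ≤ R := hr0.trans (min_le_left _ _)
  have hr1 : r ≤ s * rho R / (2048 * KK * B) := hr0.trans (min_le_right _ _)
  have h8r : 8 * r < rho r := by have := rho_ge hr; linarith
  have hbr := br_small h hr hrR hp
  have e1 := hbr (ball_subset_ball h8r.le hu0)
  have e2 := hbr (ball_subset_ball h8r.le hu)
  rw [e1] at hval ⊢
  rw [e2]
  have h8R : 8 * r ≤ rho R / 2 := by
    have := rho_ge hR
    linarith
  have hc0 : u0 ∈ closedBall x (rho R / 2) := ball_subset_closedBall (ball_subset_ball h8R hu0)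
  have hc1 : u ∈ closedBall x (rho R / 2) := ball_subset_closedBall (ball_subset_ball h8R hu)
  have hsub : ball u0 (rho R / 2) ⊆ ball x (rho R) := by
    apply ball_subset_ball'
    rw [mem_closedBall] at hc0
    linarith
  have hcov := univ_cover (R := rho R / 2) (by positivity) ((br_diff h hp).mono hsub)
    ((br_inj h hp).mono hsub)
  have h0 : (0 : ℂ) ∉ ball (br P Q x R p u0) (rho R / 2 * ‖deriv (br P Q x R p) u0‖ / 16) := by
    intro h1
    obtain ⟨t, ht, he⟩ := hcov h1
    have h2 := br_off h hp (hsub ht)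
    rw [he] at h2
    exact h2 h.z0
  have hnorm : ‖br P Q x R p u0‖ ≤ B := by
    rw [mem_ball, dist_eq_norm] at hval
    have : br P Q x R p u0 = c + (br P Q x R p u0 - c) := by ring
    rw [this]
    refine (norm_add_le _ _).trans ?_
    rw [hB]
    linarith
  have hder : rho R / 2 * ‖deriv (br P Q x R p) u0‖ / 16 ≤ B := by
    rw [mem_ball, dist_eq_norm, zero_sub, norm_neg, not_lt] at h0
    exact h0.trans hnorm
  have hlip := distort_lip hrho (br_diff h hp) (br_inj h hp) hc1 hc0 hc0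
  have huu : ‖u - u0‖ ≤ 16 * r := by
    rw [mem_ball, dist_eq_norm] at hu hu0
    have e : u - u0 = (u - x) - (u0 - x) := by ring
    rw [e]
    refine (norm_sub_le _ _).trans ?_
    linarith
  have hd1 : ‖deriv (br P Q x R p) u0‖ ≤ 32 * B / rho R := by
    rw [le_div_iff₀ hrho]
    linarith
  calc ‖br P Q x R p u - br P Q x R p u0‖ ≤ KK * ‖deriv (br P Q x R p) u0‖ * ‖u - u0‖ := hlip
    _ ≤ KK * (32 * B / rho R) * (16 * r) := by gcongr
    _ ≤ KK * (32 * B / rho R) * (16 * (s * rho R / (2048 * KK * B))) := by gcongr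
    _ = s / 4 := by
        field_simp
        norm_num

/-- the window lemma -/
theorem win_sph (h : PS0 d P Q PA c s) (hA1 : ball c s ⊆ A) (hA2 : A ⊆ ball c (11 / 10 * s))
    (hx : (x : OnePoint ℂ) ∉ PA) (htr : ∀ ε : ℝ, 0 < ε → ∃ (m : ℕ) (u : ℂ), u ∈ ball x ε ∧
      (rat P Q)^[m] (u : OnePoint ℂ) = (c : OnePoint ℂ)) (hxc : x ≠ c) {ρ0 : ℝ} (hρ : 0 < ρ0) :
    ∃ r : ℝ, 0 < r ∧ r ≤ ρ0 ∧ PS0 d P Q PA x r ∧
      (∃ (x' : ℂ) (r' : ℝ) (N0 : ℕ), Win P Q x r (EE P Q x A ∪ R1 P Q x A) x' r' N0) ∧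
      ∀ p ∈ R1 P Q x A, MapsTo (br P Q x r p) (ball x (8 * r)) (ball c (2 * s)) := by
  have hs := h.s0
  obtain ⟨R0, hR0, hoff⟩ := exists_off h.sys.closed hx
  have hK := KK_pos
  obtain ⟨R, hR, hRe⟩ : ∃ R : ℝ, 0 < R ∧ rho R = 4 * R0 := by
    refine ⟨4 * R0 / (131072 * KK), by positivity, ?_⟩
    unfold rho
    field_simp
  have hPR : PS0 d P Q PA x R := ⟨h.sys, h.rd, h.z0, h.z1, hR, by rw [hRe]; exact hoff⟩
  obtain ⟨r0, hr0, hr0R, htiny⟩ := tiny hPR c hs
  set r : ℝ := min r0 ρ0 with hrd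
  have hr : 0 < r := lt_min hr0 hρ
  have hrr : r ≤ r0 := min_le_left _ _
  have hP : PS0 d P Q PA x r := hPR.mono hr (hrr.trans hr0R)
  have h8r : ball x (8 * r) ⊆ ball x (rho r) :=
    ball_subset_ball (by have := rho_ge hr; linarith)
  have hxr : x ∈ ball x (8 * r) := mem_ball_self (by positivity)
  refine ⟨r, hr, min_le_right _ _, hP, ?_, ?_⟩
  · obtain ⟨m, u0, hu0, hm⟩ := htr (min r ‖x - c‖)
      (lt_min hr (norm_pos_iff.2 (sub_ne_zero.2 hxc)))
    have hu0r : u0 ∈ ball x r := ball_subset_ball (min_le_left _ _) hu0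
    have hm1 : 1 ≤ m := by
      by_contra hcon
      have hm0 : m = 0 := by omega
      rw [hm0] at hm
      have h1 : u0 = c := OnePoint.coe_injective hm
      have h2 := ball_subset_ball (min_le_right r ‖x - c‖) hu0
      rw [mem_ball, dist_eq_norm, h1, norm_sub_rev] at h2
      exact lt_irrefl _ h2
    have hcont : Continuous fun u : ℂ => (rat P Q)^[m] (u : OnePoint ℂ) :=
      ((rat_cont hP).iterate m).comp continuous_coe
    have hopen : IsOpen (((↑) : ℂ → OnePoint ℂ) '' ball c (s / 2)) :=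
      OnePoint.isOpenEmbedding_coe.isOpenMap _ isOpen_ball
    have hnh : (fun u : ℂ => (rat P Q)^[m] (u : OnePoint ℂ)) ⁻¹'
        (((↑) : ℂ → OnePoint ℂ) '' ball c (s / 2)) ∩ ball x r ∈ 𝓝 u0 := by
      refine Filter.inter_mem (hcont.continuousAt.preimage_mem_nhds (hopen.mem_nhds ?_))
        (isOpen_ball.mem_nhds hu0r)
      exact ⟨c, mem_ball_self (by positivity), hm.symm⟩
    obtain ⟨r', hr', hb⟩ := Metric.mem_nhds_iff.1 hnh
    have hbr : ball u0 r' ⊆ ball x r := fun u hu => (hb hu).2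
    have hbm : ∀ u ∈ ball u0 r', ∃ v ∈ ball c (s / 2), (v : OnePoint ℂ) = (rat P Q)^[m] (u : OnePoint ℂ) :=
      fun u hu => (hb hu).1
    have hb8 : ball u0 r' ⊆ ball x (8 * r) :=
      hbr.trans (ball_subset_ball (by linarith))
    refine ⟨u0, r', m + 1, hr', hbr, Nat.succ_pos m, ?_⟩
    have hIX : ∀ p ∈ EE P Q x A ∪ R1 P Q x A, p ∈ IX P Q x := by
      rintro p (hp | hp)
      · exact hp.1
      · exact hp.1
    have hav : ∀ p ∈ EE P Q x A ∪ R1 P Q x A, Av P Q A 1 p.1 p.2 := by
      rintro p (hp | hp)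
      · exact fun i _ hi => hp.2 i (Nat.zero_le _) hi
      · exact hp.2.2.2
    have key : ∀ p ∈ EE P Q x A ∪ R1 P Q x A, ∀ q ∈ EE P Q x A ∪ R1 P Q x A,
        p.1 % (m + 1) = q.1 % (m + 1) → p.1 ≤ q.1 → ∀ u ∈ ball u0 r', ∀ v ∈ ball u0 r',
          br P Q x r p u = br P Q x r q v → p = q := by
      intro p hp q hq hmod hpq u hu v hv he
      have h1 := br_inv hP (hIX p hp) (h8r (hb8 hu))
      have h2 := br_inv hP (hIX q hq) (h8r (hb8 hv))
      rcases eq_or_lt_of_le hpq with h3 | h3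
      · rw [he, h3, h2] at h1
        have h4 := OnePoint.coe_injective h1
        rw [h4] at he
        exact same hP (hIX p hp) (hIX q hq) h3 (h8r (hb8 hu)) he
      · exfalso
        have h4 : p.1 + (m + 1) ≤ q.1 := by
          have h5 : (m + 1) ∣ q.1 - p.1 := (Nat.modEq_iff_dvd' hpq).1 hmod
          have h6 := Nat.le_of_dvd (by omega) h5
          omega
        have h5 : p.1 + m ≤ q.1 := by omega
        obtain ⟨y, hy1, hy2, hy3⟩ := pre hP (hIX q hq) h5
        have h6 := hy3 v (h8r (hb8 hv))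
        rw [← he, Nat.add_comm, Function.iterate_add_apply, h1] at h6
        obtain ⟨w, hw, hwe⟩ := hbm u hu
        rw [← hwe] at h6
        have h7 := OnePoint.coe_injective h6
        rw [Nat.add_comm] at h7
        have h8 : br P Q x r (q.1 - (p.1 + m), y) v ∈ ball c (2 * s) := by
          rw [← h7]
          exact ball_subset_ball (by linarith) hw
        have h9 := htiny r hr hrr _ hy2 v (hb8 hv) h8 x hxr
        rw [br_c hP hy2, ← h7] at h9
        have h10 : y ∈ A := by
          apply hA1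
          rw [mem_ball, dist_eq_norm] at hw ⊢
          have e : y - c = (y - w) + (w - c) := by ring
          rw [e]
          refine lt_of_le_of_lt (norm_add_le _ _) ?_
          have h11 : ‖y - w‖ ≤ s / 4 := h9
          linarith
        exact hav q hq (p.1 + m) (by omega) (by omega) y h10 hy1
    intro p hp q hq hpq hmod
    rw [Set.disjoint_left]
    rintro _ ⟨u, hu, rfl⟩ ⟨v, hv, he⟩
    rcases le_total p.1 q.1 with h1 | h1
    · exact hpq (key p hp q hq hmod h1 u hu v hv he.symm)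
    · exact hpq (key q hq p hp hmod.symm h1 v hv u hu he).symm
  · intro p hp u hu
    have h1 : br P Q x r p x ∈ ball c (11 / 10 * s) := by
      rw [br_c hP hp.1]
      exact hA2 hp.2.2.1
    have h2 := htiny r hr hrr p hp.1 x hxr (ball_subset_ball (by linarith) h1) u hu
    rw [mem_ball, dist_eq_norm] at h1 ⊢
    have e : br P Q x r p u - c = (br P Q x r p u - br P Q x r p x) + (br P Q x r p x - c) := by
      ring
    rw [e]
    refine lt_of_le_of_lt (norm_add_le _ _) ?_
    linarith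

end Pool.Agent.H42.PP
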